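import Mathlib
import Pool.Agent.TH350.RC.SumReg

/-!
# The relation for `tanh` and `coth`, and the products of two Bernoulli numbers
-/

set_option autoImplicit false

namespace Pool.Agent.K1H44.RG

section Series

open PowerSeries Finset Pool.Agent.TH350.AddF

lemma EE_const (a : ℚ) : coeff 0 (rescale a EE) = 1 := by
  rw [coeff_rescale]
  unfold EE
  rw [coeff_exp]
  simp

/-- the multiplication rule for `x tanh x` -/
lemma TT_mul (a : ℚ) (ha : a ≠ 0) :
    (rescale a EE + 1) * (rescale (2 * a) YY - rescale a YY) =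
      C (a / 2) * X * (rescale a EE - 1) := by
  have h1 := YY_mul a
  have h2 := YY_mul (2 * a)
  have h3 : rescale (2 * a) EE = rescale a EE * rescale a EE := by
    rw [EE_add]
    congr 2
    ring
  rw [h3] at h2
  have n1 := EE_ne a ha
  set u := rescale a EE
  have c1 : (C (2 * a / 2) : PowerSeries ℚ) = C (a / 2) + C (a / 2) := by
    rw [← map_add]; congr 1; ring
  rw [c1] at h2
  apply mul_left_cancel₀ n1
  linear_combination h2 - (u + 1) * h1

theorem tanh_addition (a b : ℚ) (ha : a ≠ 0) (hb : b ≠ 0) (hab : a - b ≠ 0) :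
    (rescale (2 * (a - b)) YY - rescale (a - b) YY) *
      (C a * rescale b YY - C b * (rescale (2 * a) YY - rescale a YY)) =
    C (a - b) * ((rescale (2 * a) YY - rescale a YY) * rescale b YY - C (a * b / 4) * X ^ 2) := by
  have h1 := TT_mul a ha
  have h2 := YY_mul b
  have h3 := TT_mul (a - b) hab
  have h4 : rescale (a - b) EE * rescale b EE = rescale a EE := by
    rw [EE_add]
    congr 2
    ring
  have n2 := EE_ne b hb
  have n1 : rescale a EE + 1 ≠ 0 := by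
    intro h
    have := congrArg (coeff 0) h
    rw [map_add, EE_const] at this
    simp at this
  have n3 : rescale a EE + rescale b EE ≠ 0 := by
    intro h
    have := congrArg (coeff 0) h
    rw [map_add, EE_const, EE_const] at this
    simp at this
  set u := rescale a EE
  set v := rescale b EE
  set w := rescale (a - b) EE
  set Ta := rescale (2 * a) YY - rescale a YY
  set Yb := rescale b YY
  set Tc := rescale (2 * (a - b)) YY - rescale (a - b) YY
  have c1 : (C (a / 2) : PowerSeries ℚ) = C (1 / 2 : ℚ) * C a := by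
    rw [← map_mul]; congr 1; ring
  have c2 : (C (b / 2) : PowerSeries ℚ) = C (1 / 2 : ℚ) * C b := by
    rw [← map_mul]; congr 1; ring
  have c3 : (C ((a - b) / 2) : PowerSeries ℚ) = C (1 / 2 : ℚ) * (C a - C b) := by
    rw [← map_sub, ← map_mul]; congr 1; ring
  have c4 : (C (a * b / 4) : PowerSeries ℚ) = C (1 / 2 : ℚ) * C (1 / 2 : ℚ) * (C a * C b) := by
    rw [← map_mul, ← map_mul, ← map_mul]; congr 1; ring
  have c5 : (C (a - b) : PowerSeries ℚ) = C a - C b := map_sub _ _ _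
  rw [c1] at h1
  rw [c2] at h2
  rw [c3] at h3
  rw [c4, c5]
  have h5 : (u + v) * Tc = C (1 / 2 : ℚ) * (C a - C b) * X * (u - v) := by
    linear_combination v * h3 - (Tc - C (1 / 2 : ℚ) * (C a - C b) * X) * h4
  apply mul_left_cancel₀ (mul_ne_zero (mul_ne_zero n1 n2) n3)
  have L : (u + 1) * (v - 1) * (u + v) * (Tc * (C a * Yb - C b * Ta)) =
      ((u + v) * Tc) * (C a * ((v - 1) * Yb) * (u + 1) - C b * ((u + 1) * Ta) * (v - 1)) := by ring
  have R : (u + 1) * (v - 1) * (u + v) * ((C a - C b) * (Ta * Yb -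
      C (1 / 2 : ℚ) * C (1 / 2 : ℚ) * (C a * C b) * X ^ 2)) =
      (C a - C b) * (u + v) * (((u + 1) * Ta) * ((v - 1) * Yb) - (u + 1) * (v - 1) *
        (C (1 / 2 : ℚ) * C (1 / 2 : ℚ) * (C a * C b) * X ^ 2)) := by ring
  rw [L, R, h1, h2, h5]
  ring

theorem tanh_rat (k t : ℕ) (hk : 2 ≤ k) (ht : 2 ≤ t) :
    ∑ i ∈ range (k + 1), yy (2 * i) * yy (2 * (k - i)) * (((4 : ℚ) ^ i - 1) *
      (((t : ℚ) - 1) ^ (2 * i) * ((t : ℚ) - ((4 : ℚ) ^ (k - i) - 1) * (t : ℚ) ^ (2 * (k - i))) -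
        ((t : ℚ) - 1) * (t : ℚ) ^ (2 * i))) = 0 := by
  have ht0 : (t : ℚ) ≠ 0 := by positivity
  have ht1 : (t : ℚ) - 1 ≠ 0 := by
    have : (2 : ℚ) ≤ t := by exact_mod_cast ht
    linarith
  have h := tanh_addition t 1 ht0 one_ne_zero ht1
  have h1 := congrArg (coeff (2 * k)) h
  have e1 : (rescale (2 * ((t : ℚ) - 1)) YY - rescale ((t : ℚ) - 1) YY) *
      (C (t : ℚ) * rescale (1 : ℚ) YY - C (1 : ℚ) * (rescale (2 * (t : ℚ)) YY - rescale (t : ℚ) YY)) =
      C (t : ℚ) * (rescale (2 * ((t : ℚ) - 1)) YY * rescale (1 : ℚ) YY) -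
      C (t : ℚ) * (rescale ((t : ℚ) - 1) YY * rescale (1 : ℚ) YY) -
      rescale (2 * ((t : ℚ) - 1)) YY * rescale (2 * (t : ℚ)) YY +
      rescale (2 * ((t : ℚ) - 1)) YY * rescale (t : ℚ) YY +
      rescale ((t : ℚ) - 1) YY * rescale (2 * (t : ℚ)) YY -
      rescale ((t : ℚ) - 1) YY * rescale (t : ℚ) YY := by
    rw [map_one]; ring
  have e2 : C ((t : ℚ) - 1) * ((rescale (2 * (t : ℚ)) YY - rescale (t : ℚ) YY) * rescale (1 : ℚ) YY -
      C ((t : ℚ) * 1 / 4) * X ^ 2) =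
      C ((t : ℚ) - 1) * (rescale (2 * (t : ℚ)) YY * rescale (1 : ℚ) YY) -
      C ((t : ℚ) - 1) * (rescale (t : ℚ) YY * rescale (1 : ℚ) YY) -
      C (((t : ℚ) - 1) * ((t : ℚ) * 1 / 4)) * X ^ 2 := by
    rw [map_mul]; ring
  rw [e1, e2] at h1
  clear e1 e2 h
  obtain ⟨d, hd⟩ : ∃ d : ℚ, d = (t : ℚ) - 1 := ⟨_, rfl⟩
  rw [← hd] at h1 ⊢
  simp only [map_add, map_sub, coeff_C_mul, coeff_prod, coeff_X_pow] at h1
  rw [if_neg (by omega), mul_zero, sub_zero] at h1
  rw [← sub_eq_zero] at h1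
  rw [← h1]
  simp only [Finset.mul_sum, ← Finset.sum_sub_distrib, ← Finset.sum_add_distrib]
  refine Finset.sum_congr rfl fun i _ => ?_
  have e3 : ∀ (x : ℚ) (m : ℕ), (2 * x) ^ (2 * m) = 4 ^ m * x ^ (2 * m) := by
    intro x m
    rw [mul_pow, pow_mul (2 : ℚ) 2 m]
    norm_num
  rw [e3, e3, e3, one_pow]
  ring

end Series

section Mod

open Finset Pool.Agent.TH350.AddF Pool.Agent.TH350.SumReg Pool.Agent.H332R2

variable {p : ℕ} [hp : Fact p.Prime]

/-- the relation for `tanh` modulo `p` -/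
theorem tanh_mod (k : ℕ) (hk : 2 ≤ k) (hkp : 2 * k + 3 ≤ p) (x : ZMod p) :
    ∑ i ∈ range (k + 1), ww p k i * (((4 : ZMod p) ^ i - 1) *
      ((x - 1) ^ (2 * i) * (x - ((4 : ZMod p) ^ (k - i) - 1) * x ^ (2 * (k - i))) -
        (x - 1) * x ^ (2 * i))) = 0 := by
  obtain ⟨t, ht, hx⟩ : ∃ t : ℕ, 2 ≤ t ∧ (t : ZMod p) = x := by
    refine ⟨x.val + p, ?_, ?_⟩
    · have := hp.out.two_le; omega
    · push_cast
      simp
  subst hx
  have h := tanh_rat k t hk ht
  set c : ℕ → ℤ := fun i => ((4 : ℤ) ^ i - 1) *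
      (((t : ℤ) - 1) ^ (2 * i) * ((t : ℤ) - ((4 : ℤ) ^ (k - i) - 1) * (t : ℤ) ^ (2 * (k - i))) -
        ((t : ℤ) - 1) * (t : ℤ) ^ (2 * i)) with hc
  have h' : ∑ i ∈ range (k + 1), yy (2 * i) * yy (2 * (k - i)) * ((c i : ℤ) : ℚ) = 0 := by
    rw [← h]
    refine Finset.sum_congr rfl (fun i _ => ?_)
    rw [hc]
    push_cast
    ring
  have hok : ∀ i ∈ range (k + 1), ((yy (2 * i) * yy (2 * (k - i)) * ((c i : ℤ) : ℚ)).den : ZMod p) ≠ 0 := by
    intro i hi
    rw [Finset.mem_range] at hi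
    exact den_mul_ne (den_mul_ne (yy_ok (by omega)).1 (yy_ok (by omega)).1) (int_ok _).1
  have h2 := (cast_sum_ok (F := ZMod p) (range (k + 1)) _ hok).2
  rw [h', Rat.cast_zero] at h2
  rw [h2]
  refine Finset.sum_congr rfl (fun i hi => ?_)
  rw [Finset.mem_range] at hi
  have a1 := yy_ok (p := p) (m := i) (by omega)
  have a2 := yy_ok (p := p) (m := k - i) (by omega)
  have a3 := int_ok (p := p) (c i)
  rw [Rat.cast_mul_of_ne_zero (den_mul_ne a1.1 a2.1) a3.1, Rat.cast_mul_of_ne_zero a1.1 a2.1,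
    a1.2, a2.2, a3.2, hc]
  unfold ww
  push_cast
  ring

/-- the relation for `coth` modulo `p` -/
theorem coth_mod (k : ℕ) (hk : 2 ≤ k) (hkp : 2 * k + 3 ≤ p) (x : ZMod p) :
    ∑ i ∈ range (k + 1), ww p k i *
      ((x + 1) ^ (2 * i) * (x ^ (2 * (k - i)) + x) - (x + 1) * x ^ (2 * i)) = 0 := by
  obtain ⟨t, ht, hx⟩ : ∃ t : ℕ, 1 ≤ t ∧ (t : ZMod p) = x := by
    refine ⟨x.val + p, ?_, ?_⟩
    · have := hp.out.pos; omega
    · push_cast
      simp
  subst hx
  exact identity_mod k t hk hkp ht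

end Mod

end Pool.Agent.K1H44.RG
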