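import Mathlib
import Pool.Agent.K1H44.RG.Tanh

/-!
# The relations at the points `±1`, `±2`, `±1/2`
-/

set_option autoImplicit false

namespace Pool.Agent.K1H44.RG

open Polynomial Finset Pool.Agent.TH350.SumReg Pool.Agent.H332R2

variable {p : ℕ} [hp : Fact p.Prime]

/-- `∑ w_i x ^ (2 i)` -/
noncomputable def Fv (p : ℕ) [Fact p.Prime] (k : ℕ) (x : ZMod p) : ZMod p :=
  ∑ i ∈ range (k + 1), ww p k i * x ^ (2 * i)

lemma ww_symm' (k i : ℕ) (hi : i ≤ k) : ww p k (k - i) = ww p k i := by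
  unfold ww
  rw [show k - (k - i) = i by omega, mul_comm]

/-- the relation at the point `τ`, for values -/
def UE (p : ℕ) [Fact p.Prime] (k : ℕ) (τ : ZMod p) (α β : ℕ → ZMod p) : Prop :=
  ∀ x : ZMod p, x ≠ 0 → (x - τ) * Fv p k x =
    ∑ i ∈ range (k + 1), ww p k i * ((x - τ) ^ (2 * i) * (α i * x + β i * x ^ (2 * (k - i))))

lemma even_neg (x : ZMod p) (m : ℕ) : (-x) ^ (2 * m) = x ^ (2 * m) := by
  rw [pow_mul, neg_sq, ← pow_mul]

lemma ue_neg_one (k : ℕ) (hk : 2 ≤ k) (hkp : 2 * k + 3 ≤ p) :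
    UE p k (-1) (fun _ => 1) (fun _ => 1) := by
  intro x _
  have h := coth_mod k hk hkp x
  unfold Fv
  rw [← sub_eq_zero, Finset.mul_sum, ← Finset.sum_sub_distrib, ← neg_eq_zero,
    ← Finset.sum_neg_distrib, ← h]
  refine Finset.sum_congr rfl fun i _ => ?_
  rw [sub_neg_eq_add]
  ring

lemma ue_neg (k : ℕ) (τ : ZMod p) (α β : ℕ → ZMod p) (h : UE p k τ α β) :
    UE p k (-τ) α (fun i => - β i) := by
  intro x hx
  have h1 := h (-x) (neg_ne_zero.2 hx)
  have h2 : Fv p k (-x) = Fv p k x := by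
    unfold Fv
    refine Finset.sum_congr rfl fun i _ => ?_
    rw [even_neg]
  rw [h2] at h1
  rw [show (x - -τ) * Fv p k x = - ((-x - τ) * Fv p k x) by ring, h1, ← Finset.sum_neg_distrib]
  refine Finset.sum_congr rfl fun i _ => ?_
  rw [even_neg, show -x - τ = -(x - -τ) by ring, even_neg]
  ring

lemma ue_inv (k : ℕ) (τ : ZMod p) (hτ : τ ≠ 0) (α β : ℕ → ZMod p) (h : UE p k τ α β) :
    UE p k τ⁻¹ (fun i => - (τ ^ (2 * i) * τ⁻¹ * β i)) (fun i => - (τ ^ (2 * i) * τ⁻¹ * α i)) := by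
  intro x hx
  have h1 := h x⁻¹ (inv_ne_zero hx)
  have h2 : Fv p k x⁻¹ * x ^ (2 * k) = Fv p k x := by
    unfold Fv
    rw [Finset.sum_mul, ← Finset.sum_range_reflect (fun i => ww p k i * x ^ (2 * i))]
    refine Finset.sum_congr rfl fun i hi => ?_
    rw [mem_range] at hi
    rw [show k + 1 - 1 - i = k - i by omega, ww_symm' k i (by omega), inv_pow]
    have e : x ^ (2 * k) = x ^ (2 * i) * x ^ (2 * (k - i)) := by
      rw [← pow_add]; congr 1; omega
    rw [e]
    have : x ^ (2 * i) ≠ 0 := pow_ne_zero _ hx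
    field_simp
  have h3 : (x - τ⁻¹) * Fv p k x = -(τ⁻¹ * (((x⁻¹ - τ) * Fv p k x⁻¹) * (x * x ^ (2 * k)))) := by
    rw [← h2]
    field_simp
    ring
  rw [h3, h1, Finset.sum_mul, Finset.mul_sum, ← Finset.sum_neg_distrib]
  refine Finset.sum_congr rfl fun i hi => ?_
  rw [mem_range] at hi
  have e : x ^ (2 * k) = x ^ (2 * i) * x ^ (2 * (k - i)) := by
    rw [← pow_add]; congr 1; omega
  have e2 : (x⁻¹ - τ) ^ (2 * i) * x ^ (2 * i) = τ ^ (2 * i) * (x - τ⁻¹) ^ (2 * i) := by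
    rw [← mul_pow, ← mul_pow]
    have : (x⁻¹ - τ) * x = -(τ * (x - τ⁻¹)) := by
      field_simp
      ring
    rw [this, even_neg]
  rw [inv_pow]
  have e3 : x ^ (2 * (k - i)) ≠ 0 := pow_ne_zero _ hx
  rw [e]
  have e4 : ww p k i * ((x⁻¹ - τ) ^ (2 * i) * (α i * x⁻¹ + β i * (x ^ (2 * (k - i)))⁻¹)) *
      (x * (x ^ (2 * i) * x ^ (2 * (k - i)))) =
      ww p k i * (((x⁻¹ - τ) ^ (2 * i) * x ^ (2 * i)) *
        (α i * (x⁻¹ * x) * x ^ (2 * (k - i)) + β i * ((x ^ (2 * (k - i)))⁻¹ * x ^ (2 * (k - i))) * x)) := by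
    ring
  rw [e4, e2, inv_mul_cancel₀ hx, inv_mul_cancel₀ e3]
  ring

lemma ue_one (k : ℕ) (hk : 2 ≤ k) (hkp : 2 * k + 3 ≤ p) :
    UE p k 1 (fun _ => 1) (fun _ => -1) := by
  have h := ue_neg k (-1) _ _ (ue_neg_one (p := p) k hk hkp)
  rwa [neg_neg] at h

lemma ue_two (k : ℕ) (hk : 2 ≤ k) (hkp : 2 * k + 3 ≤ p) :
    ∃ α β, UE p k 2 α β := by
  have h2 : (2 : ZMod p) ≠ 0 := by
    have := nat_ne_zero (p := p) (k := 2) (by norm_num) (by omega)
    exact_mod_cast this
  have h4 : (4 : ZMod p) ≠ 0 := by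
    have : (4 : ZMod p) = 2 * 2 := by norm_num
    rw [this]
    exact mul_ne_zero h2 h2
  refine ⟨fun _ => 1, fun i => - (2 * ((4 : ZMod p) ^ k)⁻¹ *
    (1 + (4 ^ i - 1) * (4 ^ (k - i) - 1))), ?_⟩
  intro x hx
  set y := x / 2 with hy
  have hxy : x = 2 * y := by rw [hy]; field_simp
  have hy0 : y ≠ 0 := by
    rw [hy]; exact div_ne_zero hx h2
  have h1 := ue_one (p := p) k hk hkp y hy0
  have h3 := tanh_mod k hk hkp y
  have e1 : ∀ i, (2 * y) ^ (2 * i) = 4 ^ i * y ^ (2 * i) := by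
    intro i
    rw [mul_pow, pow_mul (2 : ZMod p) 2 i]
    norm_num
  have h5 : (y - 1) * Fv p k (2 * y) = (y - 1) * Fv p k y +
      ∑ i ∈ range (k + 1), ww p k i * ((4 ^ i - 1) *
        ((y - 1) ^ (2 * i) * (y - (4 ^ (k - i) - 1) * y ^ (2 * (k - i))))) := by
    have h6 : ∑ i ∈ range (k + 1), ww p k i * (((4 : ZMod p) ^ i - 1) * ((y - 1) * y ^ (2 * i))) =
        (y - 1) * Fv p k (2 * y) - (y - 1) * Fv p k y := by
      unfold Fv
      rw [Finset.mul_sum, Finset.mul_sum, ← Finset.sum_sub_distrib]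
      refine Finset.sum_congr rfl fun i _ => ?_
      rw [e1]
      ring
    have h7 : ∑ i ∈ range (k + 1), ww p k i * (((4 : ZMod p) ^ i - 1) *
        ((y - 1) ^ (2 * i) * (y - ((4 : ZMod p) ^ (k - i) - 1) * y ^ (2 * (k - i))) -
        (y - 1) * y ^ (2 * i))) =
        ∑ i ∈ range (k + 1), ww p k i * ((4 ^ i - 1) *
        ((y - 1) ^ (2 * i) * (y - (4 ^ (k - i) - 1) * y ^ (2 * (k - i))))) -
        ∑ i ∈ range (k + 1), ww p k i * (((4 : ZMod p) ^ i - 1) * ((y - 1) * y ^ (2 * i))) := by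
      rw [← Finset.sum_sub_distrib]
      refine Finset.sum_congr rfl fun i _ => ?_
      ring
    rw [h7, h6] at h3
    linear_combination -h3
  have h8 : (x - 2) * Fv p k x = 2 * ((y - 1) * Fv p k (2 * y)) := by
    rw [hxy]; ring
  rw [h8, h5, h1, ← Finset.sum_add_distrib, Finset.mul_sum]
  refine Finset.sum_congr rfl fun i hi => ?_
  rw [mem_range] at hi
  have e2 : x - 2 = 2 * (y - 1) := by rw [hxy]; ring
  have e3 : (4 : ZMod p) ^ k = 4 ^ i * 4 ^ (k - i) := by
    rw [← pow_add]; congr 1; omega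
  have e4 : (x - 2) ^ (2 * i) = 4 ^ i * (y - 1) ^ (2 * i) := by
    rw [e2, mul_pow, pow_mul (2 : ZMod p) 2 i]
    norm_num
  have e5 : x ^ (2 * (k - i)) = 4 ^ (k - i) * y ^ (2 * (k - i)) := by
    rw [hxy, e1]
  have e6 : (4 : ZMod p) ^ i ≠ 0 := pow_ne_zero _ h4
  have e7 : (4 : ZMod p) ^ (k - i) ≠ 0 := pow_ne_zero _ h4
  rw [e4, e5, e3, hxy]
  field_simp
  ring

/-- the polynomial `∑ w_i X ^ (2 i)` -/
noncomputable def FF (p : ℕ) [Fact p.Prime] (k : ℕ) : (ZMod p)[X] :=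
  ∑ i ∈ range (k + 1), C (ww p k i) * X ^ (2 * i)

/-- the relation at the point `τ` -/
def UP (p : ℕ) [Fact p.Prime] (k : ℕ) (τ : ZMod p) (α β : ℕ → ZMod p) : Prop :=
  (X - C τ) * FF p k = ∑ i ∈ range (k + 1), C (ww p k i) *
    ((X - C τ) ^ (2 * i) * (C (α i) * X + C (β i) * X ^ (2 * (k - i))))

lemma natDegree_XC (τ : ZMod p) (m : ℕ) : ((X - C τ) ^ m).natDegree ≤ m := by
  refine natDegree_pow_le.trans ?_
  rw [natDegree_X_sub_C, mul_one]

theorem up_of_ue (k : ℕ) (hkp : 2 * k + 3 ≤ p) (τ : ZMod p) (α β : ℕ → ZMod p)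
    (h : UE p k τ α β) : UP p k τ α β := by
  unfold UP
  rw [← sub_eq_zero]
  set g : (ZMod p)[X] := (X - C τ) * FF p k - ∑ i ∈ range (k + 1), C (ww p k i) *
    ((X - C τ) ^ (2 * i) * (C (α i) * X + C (β i) * X ^ (2 * (k - i)))) with hg
  have hdeg : g.natDegree ≤ 2 * k + 1 := by
    rw [hg]
    refine (natDegree_sub_le _ _).trans (max_le ?_ ?_)
    · have h1 : (FF p k).natDegree ≤ 2 * k := by
        unfold FF
        refine natDegree_sum_le_of_forall_le _ _ fun i hi => ?_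
        rw [mem_range] at hi
        refine (natDegree_C_mul_X_pow_le _ _).trans ?_
        omega
      have h2 := natDegree_mul_le (p := (X - C τ : (ZMod p)[X])) (q := FF p k)
      rw [natDegree_X_sub_C] at h2
      omega
    · refine natDegree_sum_le_of_forall_le _ _ fun i hi => ?_
      rw [mem_range] at hi
      refine (natDegree_C_mul_le _ _).trans ?_
      have h1 := natDegree_XC (p := p) τ (2 * i)
      have h3 : (C (α i) * X + C (β i) * X ^ (2 * (k - i)) : (ZMod p)[X]).natDegree ≤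
          max 1 (2 * (k - i)) := by
        refine (natDegree_add_le _ _).trans (max_le_max ?_ (natDegree_C_mul_X_pow_le _ _))
        refine (natDegree_C_mul_le _ _).trans natDegree_X_le
      have h2 := natDegree_mul_le (p := ((X - C τ : (ZMod p)[X]) ^ (2 * i)))
        (q := C (α i) * X + C (β i) * X ^ (2 * (k - i)))
      omega
  refine Polynomial.eq_zero_of_natDegree_lt_card_of_eval_eq_zero' g
    (Finset.univ.filter (fun x : ZMod p => x ≠ 0)) ?_ ?_
  · intro x hx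
    rw [mem_filter] at hx
    have h1 := h x hx.2
    rw [hg, eval_sub, eval_mul, eval_sub, eval_X, eval_C, eval_finsetSum]
    have h2 : (FF p k).eval x = Fv p k x := by
      unfold FF Fv
      rw [eval_finsetSum]
      refine Finset.sum_congr rfl fun i _ => ?_
      simp
    rw [h2, h1, sub_eq_zero]
    refine Finset.sum_congr rfl fun i _ => ?_
    simp
  · have h1 : (Finset.univ.filter (fun x : ZMod p => x ≠ 0)).card = p - 1 := by
      rw [Finset.filter_ne', Finset.card_erase_of_mem (mem_univ _), Finset.card_univ, ZMod.card]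
    rw [h1]
    have := hp.out.two_le
    omega

/-- the six points -/
noncomputable def SS (p : ℕ) [Fact p.Prime] : Finset (ZMod p) := {1, -1, 2, -2, 2⁻¹, -2⁻¹}

lemma two_ne (h : 7 ≤ p) : (2 : ZMod p) ≠ 0 := by
  have := nat_ne_zero (p := p) (k := 2) (by norm_num) (by omega)
  exact_mod_cast this

lemma SS_card (h : 7 ≤ p) : (SS p).card = 6 := by
  have h2 := two_ne (p := p) h
  have h3 : (3 : ZMod p) ≠ 0 := by
    have := nat_ne_zero (p := p) (k := 3) (by norm_num) (by omega)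
    exact_mod_cast this
  have h5 : (5 : ZMod p) ≠ 0 := by
    have := nat_ne_zero (p := p) (k := 5) (by norm_num) (by omega)
    exact_mod_cast this
  have hi : (2 : ZMod p) * 2⁻¹ = 1 := mul_inv_cancel₀ h2
  have h1 : (1 : ZMod p) ≠ 0 := one_ne_zero
  unfold SS
  generalize (2 : ZMod p)⁻¹ = u at hi ⊢
  rw [Finset.card_insert_of_notMem, Finset.card_insert_of_notMem, Finset.card_insert_of_notMem,
    Finset.card_insert_of_notMem, Finset.card_insert_of_notMem, Finset.card_singleton]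
  · rw [mem_singleton]
    intro h
    exact h1 (by linear_combination h - hi)
  · simp only [mem_insert, mem_singleton, not_or]
    refine ⟨fun h => h5 ?_, fun h => h3 ?_⟩
    · linear_combination -2 * h - hi
    · linear_combination -2 * h + hi
  · simp only [mem_insert, mem_singleton, not_or]
    refine ⟨fun h => h2 ?_, fun h => h3 ?_, fun h => h5 ?_⟩
    · apply mul_left_cancel₀ h2
      linear_combination h
    · linear_combination 2 * h + hi
    · linear_combination 2 * h - hi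
  · simp only [mem_insert, mem_singleton, not_or]
    refine ⟨fun h => h3 ?_, fun h => h1 ?_, fun h => h3 ?_, fun h => h1 ?_⟩
    · linear_combination -h
    · linear_combination h
    · linear_combination -2 * h - hi
    · linear_combination -2 * h + hi
  · simp only [mem_insert, mem_singleton, not_or]
    refine ⟨fun h => h2 ?_, fun h => h1 ?_, fun h => h3 ?_, fun h => h1 ?_, fun h => h3 ?_⟩
    · linear_combination h
    · linear_combination -h
    · linear_combination h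
    · linear_combination 2 * h + hi
    · linear_combination 2 * h - hi

lemma SS_ne (h : 7 ≤ p) (τ : ZMod p) (hτ : τ ∈ SS p) : τ ≠ 0 := by
  have h2 := two_ne (p := p) h
  unfold SS at hτ
  simp only [mem_insert, mem_singleton] at hτ
  rcases hτ with rfl | rfl | rfl | rfl | rfl | rfl
  · exact one_ne_zero
  · exact neg_ne_zero.2 one_ne_zero
  · exact h2
  · exact neg_ne_zero.2 h2
  · exact inv_ne_zero h2
  · exact neg_ne_zero.2 (inv_ne_zero h2)

theorem up_all (k : ℕ) (hk : 2 ≤ k) (hkp : 2 * k + 3 ≤ p) (τ : ZMod p) (hτ : τ ∈ SS p) :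
    ∃ α β, UP p k τ α β := by
  have h2 := two_ne (p := p) (by omega)
  obtain ⟨α, β, hab⟩ := ue_two (p := p) k hk hkp
  have hi := ue_inv k 2 h2 _ _ hab
  unfold SS at hτ
  simp only [mem_insert, mem_singleton] at hτ
  rcases hτ with rfl | rfl | rfl | rfl | rfl | rfl
  · exact ⟨_, _, up_of_ue k hkp _ _ _ (ue_one k hk hkp)⟩
  · exact ⟨_, _, up_of_ue k hkp _ _ _ (ue_neg_one k hk hkp)⟩
  · exact ⟨_, _, up_of_ue k hkp _ _ _ hab⟩
  · exact ⟨_, _, up_of_ue k hkp _ _ _ (ue_neg k 2 _ _ hab)⟩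
  · exact ⟨_, _, up_of_ue k hkp _ _ _ hi⟩
  · exact ⟨_, _, up_of_ue k hkp _ _ _ (ue_neg k 2⁻¹ _ _ hi)⟩

end Pool.Agent.K1H44.RG
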