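import Mathlib
import Pool.Agent.K1H44.RG.Cusps
import Pool.Agent.Y374.RP.Star2

/-!
# Gaps between the regular pairs
-/

set_option autoImplicit false

namespace Pool.Agent.K1H44.RG

open Polynomial Finset Pool.Agent.TH350.SumReg Pool.Agent.H332R2 Pool.Agent.Y374.RP

section General

variable {F : Type*} [Field F]

/-- the operator lowers the order at any point by at most its length -/
lemma dvd_opL_at (τ : F) (l : List ℕ) (g : F[X]) (M : ℕ) (h : (X - C τ) ^ (M + l.length) ∣ g) :
    (X - C τ) ^ M ∣ opL l g := by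
  induction l generalizing M with
  | nil => simpa [opL] using h
  | cons a l ih =>
    have h1 : (X - C τ) ^ (M + 1) ∣ opL l g := by
      refine ih (M + 1) ?_
      rw [List.length_cons] at h
      rwa [show M + 1 + l.length = M + (l.length + 1) by ring]
    rw [opL]
    refine dvd_sub ?_ (((pow_dvd_pow (X - C τ : F[X]) (Nat.le_succ M)).trans h1).mul_left _)
    obtain ⟨k, hk⟩ := h1
    rw [hk, derivative_mul, derivative_pow]
    have h2 : (X - C τ : F[X]) ^ (M + 1) = (X - C τ) ^ M * (X - C τ) := pow_succ _ _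
    refine ⟨X * (C ((M + 1 : ℕ) : F) * k + (X - C τ) * derivative k), ?_⟩
    rw [h2, Nat.add_sub_cancel]
    simp
    ring

/-- coefficients vanish outside `[0, a] ∪ [b, c]` -/
def Out (a b c : ℕ) (g : F[X]) : Prop := ∀ e, (a < e ∧ e < b) ∨ c < e → g.coeff e = 0

lemma out_add {a b c : ℕ} {g h : F[X]} (hg : Out a b c g) (hh : Out a b c h) : Out a b c (g + h) := by
  intro e he
  rw [coeff_add, hg e he, hh e he, add_zero]

lemma out_sub {a b c : ℕ} {g h : F[X]} (hg : Out a b c g) (hh : Out a b c h) : Out a b c (g - h) := by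
  intro e he
  rw [coeff_sub, hg e he, hh e he, sub_zero]

lemma out_C {a b c : ℕ} {g : F[X]} (t : F) (hg : Out a b c g) : Out a b c (C t * g) := by
  intro e he
  rw [coeff_C_mul, hg e he, mul_zero]

lemma out_sum {ι : Type*} {a b c : ℕ} (s : Finset ι) (g : ι → F[X]) (hg : ∀ i ∈ s, Out a b c (g i)) :
    Out a b c (∑ i ∈ s, g i) := by
  intro e he
  rw [finsetSum_coeff]
  exact Finset.sum_eq_zero fun i hi => hg i hi e he

lemma out_low {a b c : ℕ} {g : F[X]} (hg : g.natDegree ≤ a) (hac : a ≤ c) : Out a b c g := by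
  intro e he
  exact coeff_eq_zero_of_natDegree_lt (by omega)

lemma out_high {a b c m : ℕ} {g : F[X]} (hg : g.natDegree + m ≤ c) (hb : b ≤ m) :
    Out a b c (X ^ m * g) := by
  intro e he
  rw [coeff_X_pow_mul']
  split_ifs with h
  · exact coeff_eq_zero_of_natDegree_lt (by omega)
  · rfl

/-- multiplication by a polynomial of small degree -/
lemma out_mul {a b c d : ℕ} {g q : F[X]} (hg : Out a b c g) (hq : q.natDegree ≤ d) :
    Out (a + d) b (c + d) (q * g) := by
  intro e he
  rw [coeff_mul]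
  refine Finset.sum_eq_zero fun x hx => ?_
  rw [Finset.HasAntidiagonal.mem_antidiagonal] at hx
  rcases Nat.lt_or_ge d x.1 with h | h
  · rw [coeff_eq_zero_of_natDegree_lt (lt_of_le_of_lt hq h), zero_mul]
  · rw [hg x.2 (by omega), mul_zero]

lemma opL_out {p : ℕ} [CharP F p] {a b c : ℕ} {g : F[X]} (hg : Out a b c g) :
    opL (List.range (a + 1) ++ List.range' b (c + 1 - b)) g = 0 := by
  ext e
  rw [coeff_opL, coeff_zero]
  by_cases he : (a < e ∧ e < b) ∨ c < e
  · rw [hg e he, zero_mul]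
  · have hmem : e ∈ List.range (a + 1) ++ List.range' b (c + 1 - b) := by
      rw [List.mem_append, List.mem_range, List.mem_range'_1]
      omega
    have h0 : (List.map (fun a : ℕ => (e : F) - (a : F))
        (List.range (a + 1) ++ List.range' b (c + 1 - b))).prod = 0 := by
      rw [List.prod_eq_zero_iff, List.mem_map]
      exact ⟨e, hmem, sub_self _⟩
    rw [h0, mul_zero]

end General

variable {p : ℕ} [hp : Fact p.Prime]

/-- the middle part -/
noncomputable def fm (p : ℕ) [Fact p.Prime] (N M : ℕ) : (ZMod p)[X] :=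
  ∑ i ∈ Ioo M (N - M), C (ww p N i) * X ^ (2 * i)

lemma fm_coeff (N M e : ℕ) :
    (fm p N M).coeff e = if Even e ∧ M < e / 2 ∧ e / 2 < N - M then ww p N (e / 2) else 0 := by
  unfold fm
  rw [finsetSum_coeff]
  have h1 : ∀ i ∈ Ioo M (N - M), (C (ww p N i) * X ^ (2 * i) : (ZMod p)[X]).coeff e =
      if i = e / 2 then (if Even e then ww p N i else 0) else 0 := by
    intro i _
    rw [coeff_C_mul, coeff_X_pow]
    rcases Nat.even_or_odd' e with ⟨b, rfl | rfl⟩
    · rw [if_pos (even_two_mul b)]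
      by_cases h : i = b
      · rw [if_pos (by omega), if_pos (by omega), mul_one]
      · rw [if_neg (by omega), if_neg (by omega), mul_zero]
    · rw [if_neg (by rintro ⟨c, hc⟩; omega : ¬ Even (2 * b + 1)), if_neg (by omega), mul_zero]
      split_ifs <;> rfl
  rw [Finset.sum_congr rfl h1, Finset.sum_ite_eq' (Ioo M (N - M)) (e / 2)]
  by_cases h2 : e / 2 ∈ Ioo M (N - M)
  · rw [if_pos h2]
    rw [mem_Ioo] at h2
    by_cases h3 : Even e
    · rw [if_pos h3, if_pos ⟨h3, h2⟩]
    · rw [if_neg h3, if_neg (fun h => h3 h.1)]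
  · rw [if_neg h2]
    rw [mem_Ioo] at h2
    rw [if_neg (fun h => h2 h.2)]

section Main

variable (N I M : ℕ) (hN : 2 * N + 3 ≤ p) (hN2 : 2 ≤ N) (hIM : I ≤ M) (hM : 2 * M < N)
  (hgap : ∀ i, I < i → i ≤ M → ww p N i = 0)

include hIM hM hgap in
/-- the local relation at `τ` -/
lemma local_rel (τ : ZMod p) (α β : ℕ → ZMod p) (h : UP p N τ α β) :
    ∃ G : (ZMod p)[X], Out (2 * I + 1) (2 * (N - I)) (2 * N + 1) G ∧
      (X - C τ) ^ (2 * M + 2) ∣ (X - C τ) * fm p N M + G := by
  have hgap' : ∀ i, N - M ≤ i → i < N - I → ww p N i = 0 := by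
    intro i h1 h2
    rw [← ww_symm' N i (by omega)]
    exact hgap (N - i) (by omega) (by omega)
  have hsplit : range (N + 1) = (range (M + 1) ∪ Ioo M (N - M)) ∪ Icc (N - M) N := by
    ext i
    rw [mem_union, mem_union, mem_range, mem_range, mem_Ioo, mem_Icc]
    omega
  have hsum : ∀ g : ℕ → (ZMod p)[X], ∑ i ∈ range (N + 1), C (ww p N i) * g i =
      ∑ i ∈ range (I + 1), C (ww p N i) * g i + ∑ i ∈ Ioo M (N - M), C (ww p N i) * g i +
      ∑ i ∈ Icc (N - I) N, C (ww p N i) * g i := by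
    intro g
    rw [hsplit, sum_union, sum_union]
    · congr 1
      · congr 1
        refine (sum_subset (range_subset_range.2 (by omega)) fun i h1 h2 => ?_).symm
        rw [mem_range] at h1 h2
        rw [hgap i (by omega) (by omega), C_0, zero_mul]
      · refine (sum_subset (Icc_subset_Icc (by omega) le_rfl) fun i h1 h2 => ?_).symm
        rw [mem_Icc] at h1 h2
        rw [hgap' i (by omega) (by omega), C_0, zero_mul]
    · rw [disjoint_left]
      intro i hi hi'
      rw [mem_range] at hi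
      rw [mem_Ioo] at hi'
      omega
    · rw [disjoint_left]
      intro i hi hi'
      rw [mem_union, mem_range, mem_Ioo] at hi
      rw [mem_Icc] at hi'
      omega
  have hF : FF p N = ∑ i ∈ range (I + 1), C (ww p N i) * X ^ (2 * i) + fm p N M +
      ∑ i ∈ Icc (N - I) N, C (ww p N i) * X ^ (2 * i) := hsum _
  have hR := hsum (fun i => (X - C τ) ^ (2 * i) * (C (α i) * X + C (β i) * X ^ (2 * (N - i))))
  unfold UP at h
  rw [hR, hF] at h
  refine ⟨(X - C τ) * ∑ i ∈ range (I + 1), C (ww p N i) * X ^ (2 * i) +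
    (X - C τ) * ∑ i ∈ Icc (N - I) N, C (ww p N i) * X ^ (2 * i) -
    ∑ i ∈ range (I + 1), C (ww p N i) *
      ((X - C τ) ^ (2 * i) * (C (α i) * X + C (β i) * X ^ (2 * (N - i)))), ?_, ?_⟩
  · refine out_sub (out_add ?_ ?_) ?_
    · refine out_low ?_ (by omega)
      have h1 : (∑ i ∈ range (I + 1), C (ww p N i) * X ^ (2 * i) : (ZMod p)[X]).natDegree ≤ 2 * I := by
        refine natDegree_sum_le_of_forall_le _ _ fun i hi => ?_
        rw [mem_range] at hi
        refine (natDegree_C_mul_X_pow_le _ _).trans ?_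
        omega
      have h2 := natDegree_mul_le (p := (X - C τ : (ZMod p)[X]))
        (q := ∑ i ∈ range (I + 1), C (ww p N i) * X ^ (2 * i))
      rw [natDegree_X_sub_C] at h2
      omega
    · rw [Finset.mul_sum]
      refine out_sum _ _ fun i hi => ?_
      rw [mem_Icc] at hi
      rw [show (X - C τ) * (C (ww p N i) * X ^ (2 * i)) =
        C (ww p N i) * (X ^ (2 * i) * (X - C τ)) by ring]
      refine out_C _ (out_high ?_ (by omega))
      rw [natDegree_X_sub_C]
      omega
    · refine out_sum _ _ fun i hi => ?_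
      rw [mem_range] at hi
      refine out_C _ ?_
      have h1 := natDegree_XC (p := p) τ (2 * i)
      rw [show (X - C τ) ^ (2 * i) * (C (α i) * X + C (β i) * X ^ (2 * (N - i))) =
        C (α i) * (X * (X - C τ) ^ (2 * i)) + C (β i) * (X ^ (2 * (N - i)) * (X - C τ) ^ (2 * i)) by ring]
      refine out_add (out_C _ (out_low ?_ (by omega))) (out_C _ (out_high ?_ (by omega)))
      · have h2 := natDegree_mul_le (p := (X : (ZMod p)[X])) (q := (X - C τ) ^ (2 * i))
        rw [natDegree_X] at h2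
        omega
      · omega
  · have h3 : (X - C τ) * fm p N M + ((X - C τ) * ∑ i ∈ range (I + 1), C (ww p N i) * X ^ (2 * i) +
        (X - C τ) * ∑ i ∈ Icc (N - I) N, C (ww p N i) * X ^ (2 * i) -
        ∑ i ∈ range (I + 1), C (ww p N i) *
          ((X - C τ) ^ (2 * i) * (C (α i) * X + C (β i) * X ^ (2 * (N - i))))) =
        ∑ i ∈ Ioo M (N - M), C (ww p N i) *
          ((X - C τ) ^ (2 * i) * (C (α i) * X + C (β i) * X ^ (2 * (N - i)))) +
        ∑ i ∈ Icc (N - I) N, C (ww p N i) *
          ((X - C τ) ^ (2 * i) * (C (α i) * X + C (β i) * X ^ (2 * (N - i)))) := by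
      linear_combination h
    rw [h3]
    refine dvd_add (Finset.dvd_sum fun i hi => ?_) (Finset.dvd_sum fun i hi => ?_)
    · rw [mem_Ioo] at hi
      exact ((pow_dvd_pow _ (by omega)).mul_right _).mul_left _
    · rw [mem_Icc] at hi
      exact ((pow_dvd_pow _ (by omega)).mul_right _).mul_left _

lemma fm_ne (i : ℕ) (h1 : M < i) (h2 : i < N - M) (h3 : ww p N i ≠ 0) : (fm p N M).coeff (2 * i) ≠ 0 := by
  rw [fm_coeff, if_pos ⟨even_two_mul i, by omega, by omega⟩, show 2 * i / 2 = i by omega]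
  exact h3

lemma fm_low (e : ℕ) (he : e < 2 * M + 2) : (fm p N M).coeff e = 0 := by
  rw [fm_coeff, if_neg]
  rintro ⟨h1, h2, h3⟩
  omega

lemma fm_deg (hM : 2 * M < N) : (fm p N M).natDegree ≤ 2 * (N - M) - 2 := by
  rw [natDegree_le_iff_coeff_eq_zero]
  intro e he
  rw [fm_coeff, if_neg]
  rintro ⟨⟨j, hj⟩, h2, h3⟩
  omega

/-- the polynomial with the six zeros -/
noncomputable def QQ (p : ℕ) [Fact p.Prime] : (ZMod p)[X] := ∏ τ ∈ SS p, (X - C τ)

lemma QQ_split (τ : ZMod p) (hτ : τ ∈ SS p) :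
    QQ p = (X - C τ) * ∏ σ ∈ (SS p).erase τ, (X - C σ) := by
  exact (Finset.mul_prod_erase (SS p) (fun σ => (X - C σ : (ZMod p)[X])) hτ).symm

lemma natDegree_prod_XC (s : Finset (ZMod p)) : (∏ σ ∈ s, (X - C σ) : (ZMod p)[X]).natDegree = s.card := by
  rw [natDegree_prod_of_monic _ _ (fun i _ => monic_X_sub_C i)]
  simp

include hN hN2 hIM hM hgap in
/-- the first bound, when there is a middle pair -/
theorem bound_one (i₀ : ℕ) (h1 : M < i₀) (h2 : i₀ < N - M) (h3 : ww p N i₀ ≠ 0) :
    8 * M ≤ N + 12 * I + 37 := by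
  by_contra hcon
  push Not at hcon
  have hMI : 2 * I + 6 ≤ M := by omega
  have hp7 : 7 ≤ p := by omega
  set l : List ℕ := List.range (2 * I + 1 + 5 + 1) ++
    List.range' (2 * (N - I)) (2 * N + 1 + 5 + 1 - 2 * (N - I)) with hl
  have hlen : l.length = 4 * I + 14 := by
    rw [hl, List.length_append, List.length_range, List.length_range']
    omega
  obtain ⟨m, hm⟩ : ∃ m, 2 * M + 2 = m + (4 * I + 14) := ⟨2 * M + 2 - (4 * I + 14), by omega⟩
  -- the order at each of the six points
  have hdvd : ∀ τ ∈ SS p, (X - C τ) ^ m ∣ opL l (QQ p * fm p N M) := by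
    intro τ hτ
    obtain ⟨α, β, hab⟩ := up_all (p := p) N hN2 hN τ hτ
    obtain ⟨G, hG1, hG2⟩ := local_rel N I M hIM hM hgap τ α β hab
    set q : (ZMod p)[X] := ∏ σ ∈ (SS p).erase τ, (X - C σ) with hq
    have hqd : q.natDegree ≤ 5 := by
      rw [hq, natDegree_prod_XC, Finset.card_erase_of_mem hτ, SS_card hp7]
    have h4 : (X - C τ) ^ (m + l.length) ∣ QQ p * fm p N M + q * G := by
      rw [hlen, ← hm, QQ_split τ hτ, ← hq]
      have h5 : (X - C τ) * q * fm p N M + q * G = ((X - C τ) * fm p N M + G) * q := by ring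
      rw [h5]
      exact hG2.mul_right _
    have h5 := dvd_opL_at τ l _ m h4
    rw [opL_add, opL_out (p := p) (out_mul hG1 hqd), add_zero] at h5
    exact h5
  -- the order at zero
  have hX : (X : (ZMod p)[X]) ^ (2 * M + 2) ∣ opL l (QQ p * fm p N M) := by
    rw [X_pow_dvd_iff]
    intro d hd
    rw [coeff_opL, coeff_mul]
    rw [Finset.sum_eq_zero, zero_mul]
    intro x hx
    rw [Finset.HasAntidiagonal.mem_antidiagonal] at hx
    rw [fm_low N M x.2 (by omega), mul_zero]
  -- the degree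
  have hQd : (QQ p).natDegree = 6 := by
    unfold QQ
    rw [natDegree_prod_XC, SS_card hp7]
  have hPd : (QQ p * fm p N M).natDegree ≤ 2 * (N - M) + 4 := by
    have h5 := natDegree_mul_le (p := QQ p) (q := fm p N M)
    have h6 := fm_deg (p := p) N M hM
    omega
  have hd := natDegree_opL l _ _ hPd
  -- non-vanishing
  have hP0 : QQ p * fm p N M ≠ 0 := by
    refine mul_ne_zero ?_ ?_
    · unfold QQ
      rw [Finset.prod_ne_zero_iff]
      intro τ _
      exact X_sub_C_ne_zero τ
    · intro h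
      exact fm_ne N M i₀ h1 h2 h3 (by rw [h, coeff_zero])
  have hA0 : opL l (QQ p * fm p N M) ≠ 0 := by
    obtain ⟨b, hb⟩ : ∃ b, (QQ p * fm p N M).coeff b ≠ 0 := by
      by_contra hc
      push Not at hc
      exact hP0 (Polynomial.ext fun n => by rw [hc n, coeff_zero])
    have hb1 : 2 * M + 2 ≤ b := by
      by_contra hc
      apply hb
      rw [coeff_mul]
      refine Finset.sum_eq_zero fun x hx => ?_
      rw [Finset.HasAntidiagonal.mem_antidiagonal] at hx
      rw [fm_low N M x.2 (by omega), mul_zero]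
    have hb2 : b ≤ 2 * (N - M) + 4 := by
      by_contra hc
      exact hb (coeff_eq_zero_of_natDegree_lt (by omega))
    intro h
    have h4 := congrArg (fun P => coeff P b) h
    simp only [coeff_opL, coeff_zero] at h4
    rcases mul_eq_zero.1 h4 with h5 | h5
    · exact hb h5
    · rw [List.prod_eq_zero_iff, List.mem_map] at h5
      obtain ⟨a, ha, hab⟩ := h5
      rw [hl, List.mem_append, List.mem_range, List.mem_range'_1] at ha
      rw [sub_eq_zero] at hab
      rcases Nat.lt_or_ge a b with h6 | h6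
      · have h7 := nat_ne_zero (p := p) (k := b - a) (by omega) (by omega)
        rw [Nat.cast_sub (by omega), sub_ne_zero] at h7
        exact h7 hab
      · have h7 := nat_ne_zero (p := p) (k := a - b) (by omega) (by omega)
        rw [Nat.cast_sub (by omega), sub_ne_zero] at h7
        exact h7 hab.symm
  -- the product of the factors
  have hprod : X ^ (2 * M + 2) * ∏ τ ∈ SS p, (X - C τ) ^ m ∣ opL l (QQ p * fm p N M) := by
    refine IsCoprime.mul_dvd ?_ hX ?_
    · refine IsCoprime.prod_right fun τ hτ => IsCoprime.pow ?_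
      have h4 : (X - C τ : (ZMod p)[X]) - X = - C τ := by ring
      refine ⟨C τ⁻¹, - C τ⁻¹, ?_⟩
      have h5 : C τ⁻¹ * X + -C τ⁻¹ * (X - C τ) = (C τ⁻¹ * C τ : (ZMod p)[X]) := by ring
      rw [h5, ← C_mul, inv_mul_cancel₀ (SS_ne hp7 τ hτ), C_1]
    · refine Finset.prod_dvd_of_coprime ?_ hdvd
      intro σ _ τ _ hστ
      exact IsCoprime.pow (isCoprime_X_sub_C_of_isUnit_sub (sub_ne_zero.2 hστ).isUnit)
  have h4 := natDegree_le_of_dvd hprod hA0
  have h5 : (X ^ (2 * M + 2) * ∏ τ ∈ SS p, (X - C τ) ^ m : (ZMod p)[X]).natDegree =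
      2 * M + 2 + 6 * m := by
    rw [Monic.natDegree_mul (monic_X_pow _) (monic_prod_of_monic _ _ fun τ _ => (monic_X_sub_C τ).pow m),
      natDegree_X_pow, natDegree_prod_of_monic _ _ (fun τ _ => (monic_X_sub_C τ).pow m)]
    congr 1
    rw [Finset.sum_congr rfl (g := fun _ => m) (fun τ _ => by
      rw [(monic_X_sub_C τ).natDegree_pow, natDegree_X_sub_C, mul_one])]
    rw [Finset.sum_const, SS_card hp7, smul_eq_mul]
  omega

include hN hN2 hIM hM hgap in
/-- the second bound, when there is a middle pair -/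
theorem bound_two (i₀ : ℕ) (h1 : M < i₀) (h2 : i₀ < N - M) (h3 : ww p N i₀ ≠ 0) :
    M ≤ 2 * I + (JJ p N M).card := by
  classical
  obtain ⟨G, hG1, hG2⟩ := local_rel N I M hIM hM hgap (-1) _ _
    (up_of_ue N hN _ _ _ (ue_neg_one (p := p) N hN2 hN))
  set J := JJ p N M with hJ
  have hJm : ∀ i, i ∈ J ↔ (M < i ∧ i < N - M) ∧ ww p N i ≠ 0 := mem_JJ p N M
  set H : (ZMod p)[X] := (X - C (-1)) * fm p N M + G with hH
  have hX1 : (X - C (-1) : (ZMod p)[X]) = X + 1 := by rw [C_neg, C_1]; ring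
  set E : Finset ℕ := (range (2 * I + 2) ∪ Icc (2 * (N - I)) (2 * N + 1)) ∪
    (J.image (fun i => 2 * i) ∪ J.image (fun i => 2 * i + 1)) with hE
  have hfc : ∀ e, ((X - C (-1)) * fm p N M).coeff e ≠ 0 → ∃ i ∈ J, e = 2 * i ∨ e = 2 * i + 1 := by
    intro e he
    rw [hX1, add_mul, one_mul, coeff_add] at he
    have h4 : (X * fm p N M).coeff e ≠ 0 ∨ (fm p N M).coeff e ≠ 0 := by
      by_contra hc
      push Not at hc
      rw [hc.1, hc.2, add_zero] at he
      exact he rfl
    rcases h4 with h4 | h4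
    · rcases e with _ | e
      · rw [coeff_X_mul_zero] at h4
        exact absurd rfl h4
      · rw [coeff_X_mul, fm_coeff] at h4
        split_ifs at h4 with h5
        · obtain ⟨⟨j, hj⟩, h6, h7⟩ := h5
          exact ⟨e / 2, (hJm _).2 ⟨⟨h6, h7⟩, h4⟩, by omega⟩
        · exact absurd rfl h4
    · rw [fm_coeff] at h4
      split_ifs at h4 with h5
      · obtain ⟨⟨j, hj⟩, h6, h7⟩ := h5
        exact ⟨e / 2, (hJm _).2 ⟨⟨h6, h7⟩, h4⟩, by omega⟩
      · exact absurd rfl h4
  have hcoef : ∀ e, e ∉ E → H.coeff e = 0 := by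
    intro e he
    rw [hE, mem_union, mem_union, mem_union, mem_range, mem_Icc, mem_image, mem_image] at he
    push Not at he
    obtain ⟨⟨h4, h5⟩, h6, h7⟩ := he
    rw [hH, coeff_add, hG1 e (by omega), add_zero]
    by_contra hc
    obtain ⟨i, hi, h8 | h8⟩ := hfc e hc
    · exact h6 i hi h8.symm
    · exact h7 i hi h8.symm
  have hHe : ∑ a ∈ E, C (H.coeff a) * (X : (ZMod p)[X]) ^ a = H := by
    ext b
    rw [finsetSum_coeff]
    simp only [coeff_C_mul, coeff_X_pow, mul_ite, mul_one, mul_zero]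
    rw [Finset.sum_ite_eq E b]
    split_ifs with hb
    · rfl
    · exact (hcoef b hb).symm
  have hEcard : E.card ≤ 4 * I + 4 + 2 * J.card := by
    rw [hE]
    have e1 := card_union_le (range (2 * I + 2) ∪ Icc (2 * (N - I)) (2 * N + 1))
      (J.image (fun i => 2 * i) ∪ J.image (fun i => 2 * i + 1))
    have e2 := card_union_le (range (2 * I + 2)) (Icc (2 * (N - I)) (2 * N + 1))
    have e3 := card_union_le (J.image (fun i => 2 * i)) (J.image (fun i => 2 * i + 1))
    have e4 := card_image_le (s := J) (f := fun i => 2 * i)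
    have e5 := card_image_le (s := J) (f := fun i => 2 * i + 1)
    rw [card_range, Nat.card_Icc] at e2
    omega
  have hz := zest_gen (F := ZMod p) p E ?_ ∅ (by simp) (fun a => H.coeff a) (fun _ => 0)
    (2 * M + 2) ?_ ?_
  · rw [card_empty] at hz
    omega
  · intro a ha
    rw [hE, mem_union, mem_union, mem_union, mem_range, mem_Icc, mem_image, mem_image] at ha
    rcases ha with (h | h) | ⟨i, hi, h⟩ | ⟨i, hi, h⟩
    · omega
    · omega
    · have := (hJm i).1 hi
      omega
    · have := (hJm i).1 hi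
      omega
  · rw [sum_empty, add_zero, hHe, ← hX1]
    exact hG2
  · intro d'
    rw [sum_empty, sum_empty, add_zero, hHe]
    intro h
    have h4 := congrArg (fun P => coeff P (2 * i₀)) h
    simp only [coeff_zero] at h4
    rw [hH, coeff_add, hG1 (2 * i₀) (by omega), add_zero, hX1, add_mul, one_mul, coeff_add] at h4
    have h5 : (X * fm p N M).coeff (2 * i₀) = 0 := by
      obtain ⟨e, he⟩ : ∃ e, 2 * i₀ = e + 1 := ⟨2 * i₀ - 1, by omega⟩
      rw [he, coeff_X_mul, fm_coeff, if_neg]
      rintro ⟨⟨j, hj⟩, _⟩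
      omega
    rw [h5, zero_add] at h4
    exact fm_ne N M i₀ h1 h2 h3 h4

include hN hN2 hIM hM hgap in
/-- the theorem -/
theorem gap : 8 * M ≤ N + 12 * I + 37 ∧ M ≤ 2 * I + (JJ p N M).card := by
  by_cases h : ∃ i, (M < i ∧ i < N - M) ∧ ww p N i ≠ 0
  · obtain ⟨i, ⟨h1, h2⟩, h3⟩ := h
    exact ⟨bound_one N I M hN hN2 hIM hM hgap i h1 h2 h3, bound_two N I M hN hN2 hIM hM hgap i h1 h2 h3⟩
  · push Not at h
    have h1 : JJ p N I = ∅ := by
      rw [Finset.eq_empty_iff_forall_notMem]
      intro i hi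
      rw [mem_JJ] at hi
      obtain ⟨⟨h2, h3⟩, h4⟩ := hi
      apply h4
      rcases Nat.lt_or_ge M i with h5 | h5
      · rcases Nat.lt_or_ge i (N - M) with h6 | h6
        · exact h i ⟨h5, h6⟩
        · rw [← ww_symm' N i (by omega)]
          exact hgap (N - i) (by omega) (by omega)
      · exact hgap i h2 h5
    have h2 := star p N I hN hN2 (by omega)
    rw [h1, card_empty] at h2
    omega

end Main

end Pool.Agent.K1H44.RG
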