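import Mathlib
import Pool.Agent.K1H44.RG.Main

/-!
# Wronskians with respect to `X d/dX`
-/

set_option autoImplicit false

namespace Pool.Agent.K1H44.RG

open Polynomial Finset Pool.Agent.Y374.RP

variable {F : Type*} [Field F]

/-- the `a`-th iterate of `X d/dX` -/
noncomputable def th (a : ℕ) (g : F[X]) : F[X] := opL (List.replicate a 0) g

lemma coeff_th (a : ℕ) (g : F[X]) (b : ℕ) : (th a g).coeff b = g.coeff b * (b : F) ^ a := by
  unfold th
  rw [coeff_opL]
  simp

lemma th_sum_C {ι : Type*} (a : ℕ) (s : Finset ι) (c : ι → F) (g : ι → F[X]) :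
    th a (∑ i ∈ s, C (c i) * g i) = ∑ i ∈ s, C (c i) * th a (g i) := by
  unfold th
  rw [opL_sum]
  refine Finset.sum_congr rfl fun i _ => ?_
  rw [opL_C_mul]

lemma dvd_th_at (τ : F) (a : ℕ) (g : F[X]) (m : ℕ) (h : (X - C τ) ^ (m + a) ∣ g) :
    (X - C τ) ^ m ∣ th a g := by
  unfold th
  refine dvd_opL_at τ _ g m ?_
  rwa [List.length_replicate]

lemma X_dvd_th (a : ℕ) (g : F[X]) (m : ℕ) (h : X ^ m ∣ g) : X ^ m ∣ th a g := by
  rw [X_pow_dvd_iff] at h ⊢
  intro d hd
  rw [coeff_th, h d hd, zero_mul]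

lemma natDegree_th (a : ℕ) (g : F[X]) (n : ℕ) (hg : g.natDegree ≤ n) : (th a g).natDegree ≤ n :=
  natDegree_opL _ _ _ hg

/-- the Wronskian -/
noncomputable def WW {ι : Type*} [Fintype ι] [DecidableEq ι] (a : ι → ℕ) (v : ι → F[X]) : F[X] :=
  Matrix.det (Matrix.of fun i j => th (a j) (v i))

theorem WW_ne (p : ℕ) [hp : Fact p.Prime] [CharP F p] {ι : Type*} [Fintype ι] [DecidableEq ι]
    (a : ι → ℕ) (ha : ∀ j, a j < Fintype.card ι) (hinj : Function.Injective a) (v : ι → F[X])
    (hdeg : ∀ i, (v i).natDegree < p) (hli : LinearIndependent F v) : WW a v ≠ 0 := by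
  classical
  intro h
  obtain ⟨g, hg0, hg⟩ := Matrix.exists_mulVec_eq_zero_iff.2 h
  have hrel : ∀ i, ∑ j, th (a j) (v i) * g j = 0 := fun i => congrFun hg i
  -- the lowest exponent in the `g j`
  have hex : ∃ k, ∃ j, (g j).coeff k ≠ 0 := by
    by_contra hc
    push Not at hc
    apply hg0
    funext j
    exact Polynomial.ext fun k => by rw [hc k j]; rfl
  set k := Nat.find hex with hk
  obtain ⟨j₀, hj₀⟩ := Nat.find_spec hex
  rw [← hk] at hj₀
  have hmin : ∀ k' < k, ∀ j, (g j).coeff k' = 0 := by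
    intro k' hk' j
    by_contra hc
    exact Nat.find_min hex hk' ⟨j, hc⟩
  set χ : F[X] := ∑ j, C ((g j).coeff k) * X ^ (a j) with hχ
  have hχ0 : χ ≠ 0 := by
    intro h0
    have h1 := congrArg (fun P => coeff P (a j₀)) h0
    rw [hχ] at h1
    simp only [finsetSum_coeff, coeff_C_mul, coeff_X_pow, coeff_zero, mul_ite, mul_one, mul_zero] at h1
    rw [Finset.sum_eq_single j₀] at h1
    · rw [if_pos rfl] at h1
      exact hj₀ h1
    · intro j _ hj
      rw [if_neg (fun h => hj (hinj h.symm))]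
    · intro h; exact absurd (mem_univ _) h
  have hcard : 0 < Fintype.card ι := Fintype.card_pos_iff.2 ⟨j₀⟩
  have hχd : χ.natDegree ≤ Fintype.card ι - 1 := by
    rw [hχ]
    refine natDegree_sum_le_of_forall_le _ _ fun j _ => ?_
    refine (natDegree_C_mul_X_pow_le _ _).trans ?_
    have := ha j
    omega
  set R := (range p).filter (fun e : ℕ => χ.eval (e : F) = 0) with hR
  have hcast : ∀ x ∈ range p, ∀ y ∈ range p, (x : F) = (y : F) → x = y := by
    intro x hx y hy hxy
    rw [mem_range] at hx hy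
    have h1 := (CharP.natCast_eq_natCast F p).1 hxy
    rw [Nat.ModEq, Nat.mod_eq_of_lt hx, Nat.mod_eq_of_lt hy] at h1
    exact h1
  have hRcard : R.card < Fintype.card ι := by
    have h1 : (R.image (fun e : ℕ => (e : F))).card = R.card := by
      refine card_image_of_injOn ?_
      intro x hx y hy hxy
      rw [hR, Finset.mem_coe, mem_filter] at hx hy
      exact hcast x hx.1 y hy.1 hxy
    have h2 : R.image (fun e : ℕ => (e : F)) ⊆ χ.roots.toFinset := by
      intro x hx
      rw [mem_image] at hx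
      obtain ⟨e, he, rfl⟩ := hx
      rw [hR, mem_filter] at he
      rw [Multiset.mem_toFinset, mem_roots hχ0]
      exact he.2
    have h3 := card_le_card h2
    have h4 : χ.roots.toFinset.card ≤ χ.natDegree :=
      (Multiset.toFinset_card_le _).trans (card_roots' χ)
    omega
  -- a combination without these exponents
  let Φ : (ι → F) →ₗ[F] (R → F) :=
    { toFun := fun c e => (∑ i, C (c i) * v i).coeff (e : ℕ)
      map_add' := by
        intro c c'
        funext e
        simp only [Pi.add_apply, C_add, add_mul, Finset.sum_add_distrib, coeff_add]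
      map_smul' := by
        intro t c
        funext e
        simp only [Pi.smul_apply, smul_eq_mul, C_mul, RingHom.id_apply, mul_assoc]
        rw [← Finset.mul_sum, coeff_C_mul] }
  have hker : LinearMap.ker Φ ≠ ⊥ := by
    refine LinearMap.ker_ne_bot_of_finrank_lt ?_
    rw [Module.finrank_fintype_fun_eq_card, Module.finrank_fintype_fun_eq_card, Fintype.card_coe]
    exact hRcard
  obtain ⟨c, hc, hc0⟩ := Submodule.exists_mem_ne_zero_of_ne_bot hker
  rw [LinearMap.mem_ker] at hc
  set V : F[X] := ∑ i, C (c i) * v i with hV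
  have hVR : ∀ e ∈ R, V.coeff e = 0 := fun e he => congrFun hc ⟨e, he⟩
  have hV0 : V ≠ 0 := by
    intro h0
    apply hc0
    funext i
    refine (Fintype.linearIndependent_iff.1 hli) c ?_ i
    rw [← h0, hV]
    exact Finset.sum_congr rfl fun i _ => by rw [Polynomial.smul_eq_C_mul]
  have hVd : V.natDegree < p := by
    have h1 : V.natDegree ≤ p - 1 := by
      rw [hV]
      refine natDegree_sum_le_of_forall_le _ _ fun i _ => ?_
      refine (natDegree_C_mul_le _ _).trans ?_
      have := hdeg i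
      omega
    have := hp.out.pos
    omega
  have hVex : ∃ e, V.coeff e ≠ 0 := by
    by_contra hcc
    push Not at hcc
    exact hV0 (Polynomial.ext fun e => by rw [hcc e, coeff_zero])
  set e₀ := Nat.find hVex with he₀
  have hVe : V.coeff e₀ ≠ 0 := Nat.find_spec hVex
  have hVmin : ∀ e < e₀, V.coeff e = 0 := by
    intro e he
    by_contra hcc
    exact Nat.find_min hVex he hcc
  have hep : e₀ < p := by
    by_contra hcc
    exact hVe (coeff_eq_zero_of_natDegree_lt (by omega))
  have hVrel : ∑ j, th (a j) V * g j = 0 := by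
    have h1 : ∀ j, th (a j) V * g j = ∑ i, C (c i) * (th (a j) (v i) * g j) := by
      intro j
      rw [hV, th_sum_C, Finset.sum_mul]
      exact Finset.sum_congr rfl fun i _ => by ring
    rw [Finset.sum_congr rfl fun j _ => h1 j, Finset.sum_comm]
    refine Finset.sum_eq_zero fun i _ => ?_
    rw [← Finset.mul_sum, hrel i, mul_zero]
  have hco := congrArg (fun P => coeff P (e₀ + k)) hVrel
  simp only [finsetSum_coeff, coeff_zero] at hco
  have hterm : ∀ j, (th (a j) V * g j).coeff (e₀ + k) = V.coeff e₀ * ((g j).coeff k * (e₀ : F) ^ a j) := by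
    intro j
    rw [coeff_mul, Finset.sum_eq_single (e₀, k)]
    · rw [coeff_th]
      ring
    · intro x hx hxne
      rw [Finset.HasAntidiagonal.mem_antidiagonal] at hx
      rcases Nat.lt_trichotomy x.1 e₀ with h1 | h1 | h1
      · rw [coeff_th, hVmin _ h1, zero_mul, zero_mul]
      · exfalso
        apply hxne
        have h2 : x.2 = k := by omega
        exact Prod.ext h1 h2
      · rw [hmin x.2 (by omega) j, mul_zero]
    · intro hx
      exact absurd (Finset.HasAntidiagonal.mem_antidiagonal.2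
        (show (e₀, k).1 + (e₀, k).2 = e₀ + k from rfl)) hx
  rw [Finset.sum_congr rfl fun j _ => hterm j, ← Finset.mul_sum] at hco
  have hχe : χ.eval (e₀ : F) = 0 := by
    rw [hχ, eval_finsetSum]
    simp only [eval_mul, eval_C, eval_pow, eval_X]
    exact (mul_eq_zero.1 hco).resolve_left hVe
  have he₀R : e₀ ∈ R := by
    rw [hR, mem_filter, mem_range]
    exact ⟨hep, hχe⟩
  exact hVe (hVR e₀ he₀R)

section Det

variable {ι : Type*} [Fintype ι] [DecidableEq ι]

lemma dvd_det (M : Matrix ι ι F[X]) (D : ι → F[X]) (h : ∀ i j, D i ∣ M i j) :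
    ∏ i, D i ∣ M.det := by
  choose M' hM' using h
  have h1 : M = Matrix.of fun i j => D i * M' i j := by
    ext1 i j
    rw [Matrix.of_apply]
    exact hM' i j
  rw [h1]
  have h2 := Matrix.det_mul_column D (Matrix.of M')
  exact ⟨(Matrix.of M').det, h2⟩

lemma natDegree_det (M : Matrix ι ι F[X]) (d : ι → ℕ) (h : ∀ i j, (M i j).natDegree ≤ d i) :
    M.det.natDegree ≤ ∑ i, d i := by
  rw [← Matrix.det_transpose, Matrix.det_apply]
  refine natDegree_sum_le_of_forall_le _ _ fun σ _ => ?_
  have h1 : (∏ i, M.transpose (σ i) i).natDegree ≤ ∑ i, d i := by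
    refine (natDegree_prod_le _ _).trans (Finset.sum_le_sum fun i _ => ?_)
    rw [Matrix.transpose_apply]
    exact h i _
  have h2 : (Equiv.Perm.sign σ • ∏ i, M.transpose (σ i) i) =
      C (((Equiv.Perm.sign σ : ℤˣ) : ℤ) : F) * ∏ i, M.transpose (σ i) i := by
    rw [Units.smul_def, zsmul_eq_mul]
    congr 1
  rw [h2]
  exact (natDegree_C_mul_le _ _).trans h1

/-- replacing `v k` by `v k` plus a combination of the others -/
lemma WW_update (a : ι → ℕ) (v : ι → F[X]) (k : ι) (c : ι → F) (hc : c k = 1) :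
    WW a (Function.update v k (∑ i, C (c i) * v i)) = WW a v := by
  unfold WW
  have h1 := Matrix.det_updateRow_sum (Matrix.of fun i j => th (a j) (v i)) k (fun i => C (c i))
  rw [hc, C_1, one_smul] at h1
  rw [← h1]
  congr 1
  ext1 i j
  rw [Matrix.of_apply]
  by_cases hi : i = k
  · subst hi
    rw [Function.update_self, Matrix.updateRow_self, th_sum_C, Finset.sum_apply]
    refine Finset.sum_congr rfl fun i' _ => ?_
    rw [Pi.smul_apply, smul_eq_mul, Matrix.of_apply]
  · rw [Function.update_of_ne hi, Matrix.updateRow_ne hi, Matrix.of_apply]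

end Det

/-- the count of zeros -/
theorem PL (W : F[X]) (hW : W ≠ 0) (S : Finset F) (hS0 : ∀ τ ∈ S, τ ≠ 0) (e : F → ℕ)
    (he : ∀ τ ∈ S, (X - C τ) ^ (e τ) ∣ W) (B : ℕ) (hB : X ^ B ∣ W) (D : ℕ) (hD : W.natDegree ≤ D) :
    B + ∑ τ ∈ S, e τ ≤ D := by
  have hprod : X ^ B * ∏ τ ∈ S, (X - C τ) ^ (e τ) ∣ W := by
    refine IsCoprime.mul_dvd ?_ hB ?_
    · refine IsCoprime.prod_right fun τ hτ => IsCoprime.pow ?_
      refine ⟨C τ⁻¹, - C τ⁻¹, ?_⟩
      have h5 : C τ⁻¹ * X + -C τ⁻¹ * (X - C τ) = (C τ⁻¹ * C τ : F[X]) := by ring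
      rw [h5, ← C_mul, inv_mul_cancel₀ (hS0 τ hτ), C_1]
    · refine Finset.prod_dvd_of_coprime ?_ he
      intro σ _ τ _ hστ
      exact IsCoprime.pow (isCoprime_X_sub_C_of_isUnit_sub (sub_ne_zero.2 hστ).isUnit)
  have h4 := natDegree_le_of_dvd hprod hW
  have h5 : (X ^ B * ∏ τ ∈ S, (X - C τ) ^ (e τ) : F[X]).natDegree = B + ∑ τ ∈ S, e τ := by
    rw [Monic.natDegree_mul (monic_X_pow _) (monic_prod_of_monic _ _ fun τ _ => (monic_X_sub_C τ).pow _),
      natDegree_X_pow, natDegree_prod_of_monic _ _ (fun τ _ => (monic_X_sub_C τ).pow _)]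
    congr 1
    refine Finset.sum_congr rfl fun τ _ => ?_
    rw [(monic_X_sub_C τ).natDegree_pow, natDegree_X_sub_C, mul_one]
  omega

end Pool.Agent.K1H44.RG
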