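import Mathlib
import Pool.Agent.K1H44.RG.Wron

/-!
# The number of the regular pairs with one small index
-/

set_option autoImplicit false

namespace Pool.Agent.K1H44.RG

open Polynomial Finset Pool.Agent.TH350.SumReg Pool.Agent.H332R2 Pool.Agent.Y374.RP

variable {p : ℕ} [hp : Fact p.Prime]

/-- the exponents which we kill -/
def EX (N I : ℕ) (K : Finset ℕ) : Finset ℕ :=
  (range (2 * I + 7) ∪ Icc (2 * (N - I)) (2 * N + 6)) ∪
    K.biUnion (fun i => Icc (2 * i) (2 * i + 6) ∪ Icc (2 * (N - i)) (2 * (N - i) + 6))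

lemma mem_EX (N I : ℕ) (K : Finset ℕ) (e : ℕ) : e ∈ EX N I K ↔
    (e < 2 * I + 7 ∨ (2 * (N - I) ≤ e ∧ e ≤ 2 * N + 6)) ∨
      ∃ i ∈ K, (2 * i ≤ e ∧ e ≤ 2 * i + 6) ∨ (2 * (N - i) ≤ e ∧ e ≤ 2 * (N - i) + 6) := by
  unfold EX
  rw [mem_union, mem_union, mem_range, mem_Icc, mem_biUnion]
  simp only [mem_union, mem_Icc]

lemma EX_card (N I : ℕ) (K : Finset ℕ) (hI : I ≤ N) :
    (EX N I K).card ≤ 4 * I + 14 + 14 * K.card := by
  unfold EX
  have h1 := card_union_le (range (2 * I + 7) ∪ Icc (2 * (N - I)) (2 * N + 6))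
    (K.biUnion (fun i => Icc (2 * i) (2 * i + 6) ∪ Icc (2 * (N - i)) (2 * (N - i) + 6)))
  have h2 := card_union_le (range (2 * I + 7)) (Icc (2 * (N - I)) (2 * N + 6))
  have h3 := card_biUnion_le_card_mul K
    (fun i => Icc (2 * i) (2 * i + 6) ∪ Icc (2 * (N - i)) (2 * (N - i) + 6)) 14 (by
      intro i _
      have h4 := card_union_le (Icc (2 * i) (2 * i + 6)) (Icc (2 * (N - i)) (2 * (N - i) + 6))
      rw [Nat.card_Icc, Nat.card_Icc] at h4
      refine h4.trans ?_
      omega)
  rw [card_range, Nat.card_Icc] at h2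
  omega

lemma opL_kill (E : Finset ℕ) (g : (ZMod p)[X]) (h : ∀ e, e ∉ E → g.coeff e = 0) :
    opL E.toList g = 0 := by
  ext e
  rw [coeff_opL, coeff_zero]
  by_cases he : e ∈ E
  · have h0 : (List.map (fun a : ℕ => (e : ZMod p) - (a : ZMod p)) E.toList).prod = 0 := by
      rw [List.prod_eq_zero_iff, List.mem_map]
      exact ⟨e, Finset.mem_toList.2 he, sub_self _⟩
    rw [h0, mul_zero]
  · rw [h e he, zero_mul]

lemma opL_coeff_kill (E : Finset ℕ) (g : (ZMod p)[X]) (e : ℕ) (h : e ∈ E ∨ g.coeff e = 0) :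
    (opL E.toList g).coeff e = 0 := by
  rw [coeff_opL]
  rcases h with he | he
  · have h0 : (List.map (fun a : ℕ => (e : ZMod p) - (a : ZMod p)) E.toList).prod = 0 := by
      rw [List.prod_eq_zero_iff, List.mem_map]
      exact ⟨e, Finset.mem_toList.2 he, sub_self _⟩
    rw [h0, mul_zero]
  · rw [he, zero_mul]

/-- the local relation at `τ` -/
lemma local_relK (N I M : ℕ) (K : Finset ℕ) (hIM : I ≤ M) (hM : 2 * M < N)
    (hK : ∀ i ∈ K, I < i ∧ i ≤ M)
    (hgap : ∀ i, I < i → i ≤ M → i ∉ K → ww p N i = 0)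
    (τ : ZMod p) (α β : ℕ → ZMod p) (h : UP p N τ α β) :
    ∃ G : (ZMod p)[X], Out (2 * I + 1) (2 * (N - I)) (2 * N + 1) G ∧
      (X - C τ) ^ (2 * M + 2) ∣ (X - C τ) * fm p N M + G +
        ∑ i ∈ K, C (ww p N i) * ((X - C τ) * (X ^ (2 * i) + X ^ (2 * (N - i))) -
          (X - C τ) ^ (2 * i) * (C (α i) * X + C (β i) * X ^ (2 * (N - i)))) := by
  have hlow : ∀ g : ℕ → (ZMod p)[X], ∑ i ∈ range (M + 1), C (ww p N i) * g i =
      ∑ i ∈ range (I + 1), C (ww p N i) * g i + ∑ i ∈ K, C (ww p N i) * g i := by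
    intro g
    rw [← sum_union]
    · refine (sum_subset ?_ ?_).symm
      · intro i hi
        rw [mem_union, mem_range] at hi
        rw [mem_range]
        rcases hi with hi | hi
        · omega
        · have := hK i hi
          omega
      · intro i h1 h2
        rw [mem_union, mem_range, not_or] at h2
        rw [mem_range] at h1
        rw [hgap i (by omega) (by omega) h2.2, C_0, zero_mul]
    · rw [disjoint_left]
      intro i h1 h2
      rw [mem_range] at h1
      have := hK i h2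
      omega
  have hsplit : range (N + 1) = (range (M + 1) ∪ Ioo M (N - M)) ∪ Icc (N - M) N := by
    ext i
    rw [mem_union, mem_union, mem_range, mem_range, mem_Ioo, mem_Icc]
    omega
  have hrefl : ∀ g : ℕ → (ZMod p)[X], ∑ i ∈ Icc (N - M) N, C (ww p N i) * g i =
      ∑ i ∈ range (M + 1), C (ww p N i) * g (N - i) := by
    intro g
    refine sum_nbij' (fun i => N - i) (fun i => N - i) ?_ ?_ ?_ ?_ ?_
    · intro i hi
      rw [mem_Icc] at hi
      rw [mem_range]
      omega
    · intro i hi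
      rw [mem_range] at hi
      rw [mem_Icc]
      omega
    · intro i hi
      rw [mem_Icc] at hi
      show N - (N - i) = i
      omega
    · intro i hi
      rw [mem_range] at hi
      show N - (N - i) = i
      omega
    · intro i hi
      rw [mem_Icc] at hi
      show C (ww p N i) * g i = C (ww p N (N - i)) * g (N - (N - i))
      rw [ww_symm' N i (by omega), show N - (N - i) = i by omega]
  have hsum : ∀ g : ℕ → (ZMod p)[X], ∑ i ∈ range (N + 1), C (ww p N i) * g i =
      ∑ i ∈ range (M + 1), C (ww p N i) * g i + ∑ i ∈ Ioo M (N - M), C (ww p N i) * g i +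
      ∑ i ∈ range (M + 1), C (ww p N i) * g (N - i) := by
    intro g
    rw [hsplit, sum_union, sum_union, hrefl]
    · rw [disjoint_left]
      intro i hi hi'
      rw [mem_range] at hi
      rw [mem_Ioo] at hi'
      omega
    · rw [disjoint_left]
      intro i hi hi'
      rw [mem_union, mem_range, mem_Ioo] at hi
      rw [mem_Icc] at hi'
      omega
  have hF : FF p N = ∑ i ∈ range (M + 1), C (ww p N i) * X ^ (2 * i) + fm p N M +
      ∑ i ∈ range (M + 1), C (ww p N i) * X ^ (2 * (N - i)) := hsum _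
  have hR := hsum (fun i => (X - C τ) ^ (2 * i) * (C (α i) * X + C (β i) * X ^ (2 * (N - i))))
  unfold UP at h
  rw [hR, hF] at h
  have hl1 := hlow (fun i => X ^ (2 * i))
  have hl2 := hlow (fun i => X ^ (2 * (N - i)))
  have hl3 := hlow (fun i => (X - C τ) ^ (2 * i) * (C (α i) * X + C (β i) * X ^ (2 * (N - i))))
  rw [hl1, hl2, hl3] at h
  refine ⟨(X - C τ) * ∑ i ∈ range (I + 1), C (ww p N i) * X ^ (2 * i) +
    (X - C τ) * ∑ i ∈ range (I + 1), C (ww p N i) * X ^ (2 * (N - i)) -
    ∑ i ∈ range (I + 1), C (ww p N i) *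
      ((X - C τ) ^ (2 * i) * (C (α i) * X + C (β i) * X ^ (2 * (N - i)))), ?_, ?_⟩
  · refine out_sub (out_add ?_ ?_) ?_
    · refine out_low ?_ (by omega)
      have h1 : (∑ i ∈ range (I + 1), C (ww p N i) * X ^ (2 * i) : (ZMod p)[X]).natDegree ≤ 2 * I := by
        refine natDegree_sum_le_of_forall_le _ _ fun i hi => ?_
        rw [mem_range] at hi
        refine (natDegree_C_mul_X_pow_le _ _).trans ?_
        omega
      have h2 := natDegree_mul_le (p := (X - C τ : (ZMod p)[X]))
        (q := ∑ i ∈ range (I + 1), C (ww p N i) * X ^ (2 * i))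
      rw [natDegree_X_sub_C] at h2
      omega
    · rw [Finset.mul_sum]
      refine out_sum _ _ fun i hi => ?_
      rw [mem_range] at hi
      rw [show (X - C τ) * (C (ww p N i) * X ^ (2 * (N - i))) =
        C (ww p N i) * (X ^ (2 * (N - i)) * (X - C τ)) by ring]
      refine out_C _ (out_high ?_ (by omega))
      rw [natDegree_X_sub_C]
      omega
    · refine out_sum _ _ fun i hi => ?_
      rw [mem_range] at hi
      refine out_C _ ?_
      have h1 := natDegree_XC (p := p) τ (2 * i)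
      rw [show (X - C τ) ^ (2 * i) * (C (α i) * X + C (β i) * X ^ (2 * (N - i))) =
        C (α i) * (X * (X - C τ) ^ (2 * i)) + C (β i) * (X ^ (2 * (N - i)) * (X - C τ) ^ (2 * i)) by ring]
      refine out_add (out_C _ (out_low ?_ (by omega))) (out_C _ (out_high ?_ (by omega)))
      · have h2 := natDegree_mul_le (p := (X : (ZMod p)[X])) (q := (X - C τ) ^ (2 * i))
        rw [natDegree_X] at h2
        omega
      · omega
  · have h3 : (X - C τ) * fm p N M + ((X - C τ) * ∑ i ∈ range (I + 1), C (ww p N i) * X ^ (2 * i) +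
        (X - C τ) * ∑ i ∈ range (I + 1), C (ww p N i) * X ^ (2 * (N - i)) -
        ∑ i ∈ range (I + 1), C (ww p N i) *
          ((X - C τ) ^ (2 * i) * (C (α i) * X + C (β i) * X ^ (2 * (N - i))))) +
        ∑ i ∈ K, C (ww p N i) * ((X - C τ) * (X ^ (2 * i) + X ^ (2 * (N - i))) -
          (X - C τ) ^ (2 * i) * (C (α i) * X + C (β i) * X ^ (2 * (N - i)))) =
        ∑ i ∈ Ioo M (N - M), C (ww p N i) *
          ((X - C τ) ^ (2 * i) * (C (α i) * X + C (β i) * X ^ (2 * (N - i)))) +
        ∑ i ∈ range (M + 1), C (ww p N i) *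
          ((X - C τ) ^ (2 * (N - i)) * (C (α (N - i)) * X +
            C (β (N - i)) * X ^ (2 * (N - (N - i))))) := by
      have h4 : ∑ i ∈ K, C (ww p N i) * ((X - C τ) * (X ^ (2 * i) + X ^ (2 * (N - i))) -
          (X - C τ) ^ (2 * i) * (C (α i) * X + C (β i) * X ^ (2 * (N - i)))) =
          (X - C τ) * ∑ i ∈ K, C (ww p N i) * X ^ (2 * i) +
          (X - C τ) * ∑ i ∈ K, C (ww p N i) * X ^ (2 * (N - i)) -
          ∑ i ∈ K, C (ww p N i) *
          ((X - C τ) ^ (2 * i) * (C (α i) * X + C (β i) * X ^ (2 * (N - i)))) := by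
        rw [Finset.mul_sum, Finset.mul_sum, ← Finset.sum_add_distrib, ← Finset.sum_sub_distrib]
        refine Finset.sum_congr rfl fun i _ => ?_
        ring
      rw [h4]
      linear_combination h
    rw [h3]
    refine dvd_add (Finset.dvd_sum fun i hi => ?_) (Finset.dvd_sum fun i hi => ?_)
    · rw [mem_Ioo] at hi
      exact ((pow_dvd_pow _ (by omega)).mul_right _).mul_left _
    · rw [mem_range] at hi
      exact ((pow_dvd_pow _ (by omega)).mul_right _).mul_left _

/-- the product over the other points -/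
noncomputable def Qt (p : ℕ) [Fact p.Prime] (τ : ZMod p) : (ZMod p)[X] :=
  ∏ σ ∈ (SS p).erase τ, (X - C σ)

/-- the operator -/
noncomputable def AO (p : ℕ) [Fact p.Prime] (N I : ℕ) (K : Finset ℕ) (g : (ZMod p)[X]) : (ZMod p)[X] :=
  opL (EX N I K).toList g

/-- the exponent of the second factor -/
def exx (N i : ℕ) (s : Bool) : ℕ := if s then 2 * (N - i) else 1

/-- the functions coming from the exceptional indices -/
noncomputable def uu (p : ℕ) [Fact p.Prime] (N I : ℕ) (K : Finset ℕ) (τ : ZMod p) (i : ℕ) (s : Bool) :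
    (ZMod p)[X] :=
  AO p N I K (X ^ (exx N i s) * (Qt p τ * (X - C τ) ^ (2 * i)))

lemma Qt_deg (hp7 : 7 ≤ p) (τ : ZMod p) (hτ : τ ∈ SS p) : (Qt p τ).natDegree = 5 := by
  unfold Qt
  rw [natDegree_prod_XC, Finset.card_erase_of_mem hτ, SS_card hp7]

lemma uu_X (N I : ℕ) (K : Finset ℕ) (τ : ZMod p) (i : ℕ) (s : Bool) :
    X ^ (exx N i s) ∣ uu p N I K τ i s := by
  rw [X_pow_dvd_iff]
  intro d hd
  unfold uu AO
  refine opL_coeff_kill _ _ _ (Or.inr ?_)
  rw [coeff_X_pow_mul', if_neg (by omega)]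

lemma uu_arg_deg (hp7 : 7 ≤ p) (N : ℕ) (τ : ZMod p) (hτ : τ ∈ SS p) (i : ℕ) (s : Bool) :
    (X ^ (exx N i s) * (Qt p τ * (X - C τ) ^ (2 * i)) : (ZMod p)[X]).natDegree ≤
      exx N i s + 2 * i + 5 := by
  have h1 := natDegree_mul_le (p := (X ^ (exx N i s) : (ZMod p)[X])) (q := Qt p τ * (X - C τ) ^ (2 * i))
  have h2 := natDegree_mul_le (p := Qt p τ) (q := (X - C τ) ^ (2 * i))
  have h3 := Qt_deg hp7 τ hτ
  have h4 := natDegree_XC (p := p) τ (2 * i)
  rw [natDegree_X_pow] at h1
  omega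

lemma uu_deg (hp7 : 7 ≤ p) (N I : ℕ) (K : Finset ℕ) (τ : ZMod p) (hτ : τ ∈ SS p) (i : ℕ) (s : Bool) :
    (uu p N I K τ i s).natDegree ≤ exx N i s + 2 * i + 5 := by
  unfold uu AO
  exact natDegree_opL _ _ _ (uu_arg_deg hp7 N τ hτ i s)

lemma uu_tau (N I : ℕ) (K : Finset ℕ) (τ : ZMod p) (i : ℕ) (s : Bool) :
    (X - C τ) ^ (2 * i - (EX N I K).card) ∣ uu p N I K τ i s := by
  unfold uu AO
  rcases Nat.lt_or_ge (2 * i) (EX N I K).card with h | h
  · rw [Nat.sub_eq_zero_of_le h.le, pow_zero]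
    exact one_dvd _
  · refine dvd_opL_at τ _ _ _ ?_
    rw [Finset.length_toList, Nat.sub_add_cancel h]
    exact (Dvd.intro_left _ rfl).mul_left _

lemma uu_lt (hp7 : 7 ≤ p) (N I : ℕ) (hN : 2 * N + 3 ≤ p) (K : Finset ℕ) (τ : ZMod p) (hτ : τ ∈ SS p)
    (i : ℕ) (hi : i ≤ N) (s : Bool) :
    (uu p N I K τ i s).natDegree < p := by
  have h1 : (uu p N I K τ i s).natDegree ≤ p - 1 := by
    rw [natDegree_le_iff_coeff_eq_zero]
    intro e he
    unfold uu AO
    refine opL_coeff_kill _ _ _ ?_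
    rcases Nat.lt_or_ge (2 * N + 6) e with h | h
    · right
      refine coeff_eq_zero_of_natDegree_lt (lt_of_le_of_lt (uu_arg_deg hp7 N τ hτ i s) ?_)
      unfold exx
      split_ifs <;> omega
    · left
      rw [mem_EX]
      left; right
      omega
  have := hp.out.pos
  omega

lemma uu_mid (hp7 : 7 ≤ p) (N I M : ℕ) (K : Finset ℕ) (τ : ZMod p) (hτ : τ ∈ SS p)
    (i : ℕ) (hi : i + 3 ≤ M) (hM : 2 * M < N) (s : Bool) (e : ℕ) (he1 : 2 * M + 2 ≤ e)
    (he2 : e ≤ 2 * (N - M) + 4) :
    (uu p N I K τ i s).coeff e = 0 := by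
  rcases s with _ | _
  · refine coeff_eq_zero_of_natDegree_lt (lt_of_le_of_lt (uu_deg hp7 N I K τ hτ i false) ?_)
    unfold exx
    simp only [Bool.false_eq_true, if_false]
    omega
  · have h1 := uu_X (p := p) N I K τ i true
    rw [X_pow_dvd_iff] at h1
    refine h1 e ?_
    unfold exx
    simp only [if_true]
    omega

/-- the main function -/
noncomputable def PP (p : ℕ) [Fact p.Prime] (N I M : ℕ) (K : Finset ℕ) : (ZMod p)[X] :=
  AO p N I K (QQ p * fm p N M)

lemma PP_X (N I M : ℕ) (K : Finset ℕ) : X ^ (2 * M + 2) ∣ PP p N I M K := by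
  rw [X_pow_dvd_iff]
  intro d hd
  unfold PP AO
  refine opL_coeff_kill _ _ _ (Or.inr ?_)
  rw [coeff_mul]
  refine Finset.sum_eq_zero fun x hx => ?_
  rw [Finset.HasAntidiagonal.mem_antidiagonal] at hx
  rw [fm_low N M x.2 (by omega), mul_zero]

lemma QQ_deg (hp7 : 7 ≤ p) : (QQ p).natDegree = 6 := by
  unfold QQ
  rw [natDegree_prod_XC, SS_card hp7]

lemma PP_arg_deg (hp7 : 7 ≤ p) (N M : ℕ) (hM : 2 * M < N) :
    (QQ p * fm p N M).natDegree ≤ 2 * (N - M) + 4 := by
  have h5 := natDegree_mul_le (p := QQ p) (q := fm p N M)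
  have h6 := fm_deg (p := p) N M hM
  have h7 := QQ_deg (p := p) hp7
  omega

lemma PP_deg (hp7 : 7 ≤ p) (N I M : ℕ) (hM : 2 * M < N) (K : Finset ℕ) :
    (PP p N I M K).natDegree ≤ 2 * (N - M) + 4 := by
  unfold PP AO
  exact natDegree_opL _ _ _ (PP_arg_deg hp7 N M hM)

/-- the main function has a nonzero coefficient in the middle -/
lemma PP_ne (hp7 : 7 ≤ p) (N I M : ℕ) (hN : 2 * N + 3 ≤ p) (hIM : I + 3 ≤ M) (hM : 2 * M < N)
    (K : Finset ℕ) (hK : ∀ i ∈ K, I < i ∧ i + 3 ≤ M) (hf : fm p N M ≠ 0) :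
    ∃ e, 2 * M + 2 ≤ e ∧ e ≤ 2 * (N - M) + 4 ∧ (PP p N I M K).coeff e ≠ 0 := by
  have hP0 : QQ p * fm p N M ≠ 0 := by
    refine mul_ne_zero ?_ hf
    unfold QQ
    rw [Finset.prod_ne_zero_iff]
    intro τ _
    exact X_sub_C_ne_zero τ
  obtain ⟨b, hb⟩ : ∃ b, (QQ p * fm p N M).coeff b ≠ 0 := by
    by_contra hc
    push Not at hc
    exact hP0 (Polynomial.ext fun n => by rw [hc n, coeff_zero])
  have hb1 : 2 * M + 2 ≤ b := by
    by_contra hc
    apply hb
    rw [coeff_mul]
    refine Finset.sum_eq_zero fun x hx => ?_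
    rw [Finset.HasAntidiagonal.mem_antidiagonal] at hx
    rw [fm_low N M x.2 (by omega), mul_zero]
  have hb2 : b ≤ 2 * (N - M) + 4 := by
    by_contra hc
    exact hb (coeff_eq_zero_of_natDegree_lt (lt_of_le_of_lt (PP_arg_deg hp7 N M hM) (by omega)))
  refine ⟨b, hb1, hb2, ?_⟩
  unfold PP AO
  rw [coeff_opL]
  refine mul_ne_zero hb ?_
  intro h5
  rw [List.prod_eq_zero_iff, List.mem_map] at h5
  obtain ⟨a, ha, hab⟩ := h5
  rw [Finset.mem_toList, mem_EX] at ha
  have ha' : (a < b ∧ b - a < p) ∨ (b < a ∧ a - b < p) := by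
    rcases ha with (h | h) | ⟨i, hi, h | h⟩
    · left; omega
    · right; omega
    · have := hK i hi
      left; omega
    · have := hK i hi
      right; omega
  rw [sub_eq_zero] at hab
  rcases ha' with ⟨h6, h8⟩ | ⟨h6, h8⟩
  · have h7 := nat_ne_zero (p := p) (k := b - a) (by omega) (by omega)
    rw [Nat.cast_sub (by omega), sub_ne_zero] at h7
    exact h7 hab
  · have h7 := nat_ne_zero (p := p) (k := a - b) (by omega) (by omega)
    rw [Nat.cast_sub (by omega), sub_ne_zero] at h7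
    exact h7 hab.symm

lemma AO_add (N I : ℕ) (K : Finset ℕ) (g h : (ZMod p)[X]) :
    AO p N I K (g + h) = AO p N I K g + AO p N I K h := opL_add _ _ _

lemma AO_kill (N I : ℕ) (K : Finset ℕ) (g : (ZMod p)[X]) (h : ∀ e, e ∉ EX N I K → g.coeff e = 0) :
    AO p N I K g = 0 := opL_kill _ _ h

/-- the local relation, after the operator -/
lemma loc (hp7 : 7 ≤ p) (N I M : ℕ) (hN : 2 * N + 3 ≤ p) (hN2 : 2 ≤ N) (hIM : I ≤ M) (hM : 2 * M < N)
    (K : Finset ℕ) (hK : ∀ i ∈ K, I < i ∧ i ≤ M)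
    (hgap : ∀ i, I < i → i ≤ M → i ∉ K → ww p N i = 0) (τ : ZMod p) (hτ : τ ∈ SS p) :
    ∃ c d : ℕ → ZMod p, (X - C τ) ^ (2 * M + 2 - (EX N I K).card) ∣ PP p N I M K +
      ∑ i ∈ K, (C (c i) * uu p N I K τ i false + C (d i) * uu p N I K τ i true) := by
  obtain ⟨α, β, hab⟩ := up_all (p := p) N hN2 hN τ hτ
  obtain ⟨G, hG1, hG2⟩ := local_relK N I M K hIM hM hK hgap τ α β hab
  refine ⟨fun i => -(ww p N i * α i), fun i => -(ww p N i * β i), ?_⟩
  rcases Nat.lt_or_ge (2 * M + 2) (EX N I K).card with hlt | hge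
  · rw [Nat.sub_eq_zero_of_le hlt.le, pow_zero]
    exact one_dvd _
  have hqd : (Qt p τ).natDegree ≤ 5 := (Qt_deg hp7 τ hτ).le
  have hQd := QQ_deg (p := p) hp7
  have hQs : QQ p = (X - C τ) * Qt p τ := QQ_split τ hτ
  -- the functions which are killed
  have k1 : AO p N I K (Qt p τ * G) = 0 := by
    refine AO_kill _ _ _ _ fun e he => ?_
    rw [mem_EX, not_or, not_or] at he
    refine out_mul hG1 hqd e ?_
    omega
  have k2 : ∀ (m : ℕ), (∀ e, m ≤ e → e ≤ m + 6 → e ∈ EX N I K) → AO p N I K (QQ p * X ^ m) = 0 := by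
    intro m hm
    refine AO_kill _ _ _ _ fun e he => ?_
    rw [mul_comm, coeff_X_pow_mul']
    split_ifs with h
    · refine coeff_eq_zero_of_natDegree_lt ?_
      by_contra hc
      exact he (hm e h (by omega))
    · rfl
  have hdv : (X - C τ) ^ (2 * M + 2 - (EX N I K).card) ∣ AO p N I K (Qt p τ *
      ((X - C τ) * fm p N M + G +
        ∑ i ∈ K, C (ww p N i) * ((X - C τ) * (X ^ (2 * i) + X ^ (2 * (N - i))) -
          (X - C τ) ^ (2 * i) * (C (α i) * X + C (β i) * X ^ (2 * (N - i)))))) := by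
    unfold AO
    refine dvd_opL_at τ _ _ _ ?_
    rw [Finset.length_toList, Nat.sub_add_cancel hge]
    exact hG2.mul_left _
  have e1 : Qt p τ *
      ((X - C τ) * fm p N M + G +
        ∑ i ∈ K, C (ww p N i) * ((X - C τ) * (X ^ (2 * i) + X ^ (2 * (N - i))) -
          (X - C τ) ^ (2 * i) * (C (α i) * X + C (β i) * X ^ (2 * (N - i))))) =
      QQ p * fm p N M + Qt p τ * G +
        ∑ i ∈ K, C (1 : ZMod p) * ((C (ww p N i) * (QQ p * X ^ (2 * i)) +
          C (ww p N i) * (QQ p * X ^ (2 * (N - i)))) +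
          (C (-(ww p N i * α i)) * (X ^ (exx N i false) * (Qt p τ * (X - C τ) ^ (2 * i))) +
          C (-(ww p N i * β i)) * (X ^ (exx N i true) * (Qt p τ * (X - C τ) ^ (2 * i))))) := by
    have e1a : Qt p τ * ((X - C τ) * fm p N M + G) = QQ p * fm p N M + Qt p τ * G := by
      rw [hQs]; ring
    rw [mul_add (Qt p τ) ((X - C τ) * fm p N M + G), e1a, Finset.mul_sum]
    refine congrArg (fun z => QQ p * fm p N M + Qt p τ * G + z) (Finset.sum_congr rfl fun i _ => ?_)
    rw [hQs]
    unfold exx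
    simp only [Bool.false_eq_true, if_false, if_true, C_neg, C_mul, C_1]
    ring
  rw [e1, AO_add, AO_add, k1, add_zero] at hdv
  have e2 : AO p N I K (∑ i ∈ K, C (1 : ZMod p) * ((C (ww p N i) * (QQ p * X ^ (2 * i)) +
          C (ww p N i) * (QQ p * X ^ (2 * (N - i)))) +
          (C (-(ww p N i * α i)) * (X ^ (exx N i false) * (Qt p τ * (X - C τ) ^ (2 * i))) +
          C (-(ww p N i * β i)) * (X ^ (exx N i true) * (Qt p τ * (X - C τ) ^ (2 * i)))))) =
      ∑ i ∈ K, (C (-(ww p N i * α i)) * uu p N I K τ i false +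
        C (-(ww p N i * β i)) * uu p N I K τ i true) := by
    unfold AO
    rw [opL_sum]
    refine Finset.sum_congr rfl fun i hi => ?_
    rw [opL_C_mul, C_1, one_mul, opL_add, opL_add, opL_add, opL_C_mul, opL_C_mul, opL_C_mul, opL_C_mul]
    have k3 := k2 (2 * i) (fun e h1 h2 => by
      rw [mem_EX]
      exact Or.inr ⟨i, hi, Or.inl ⟨h1, h2⟩⟩)
    have k4 := k2 (2 * (N - i)) (fun e h1 h2 => by
      rw [mem_EX]
      exact Or.inr ⟨i, hi, Or.inr ⟨h1, h2⟩⟩)
    unfold AO at k3 k4
    rw [k3, k4, mul_zero, add_zero, zero_add]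
    rfl
  rw [e2] at hdv
  exact hdv


/-- the rows of the Wronskian -/
theorem bound_K (N I M : ℕ) (hN : 2 * N + 3 ≤ p) (hN2 : 2 ≤ N) (hIM : I + 3 ≤ M) (hM : 2 * M < N)
    (K : Finset ℕ) (hK : ∀ i ∈ K, I < i ∧ i + 3 ≤ M)
    (hgap : ∀ i, I < i → i ≤ M → i ∉ K → ww p N i = 0) (hf : fm p N M ≠ 0) :
    8 * M ≤ N + 12 * I + 37 + K.card * (24 * I + 156 * K.card + 192) := by
  classical
  have hp7 : 7 ≤ p := by omega
  set T : Finset (ZMod p × (ℕ × Bool)) := SS p ×ˢ (K ×ˢ univ) with hT
  have hTcard : T.card = 12 * K.card := by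
    rw [hT, card_product, card_product, SS_card hp7, card_univ, Fintype.card_bool]
    ring
  have hTm : ∀ t : T, t.1.1 ∈ SS p ∧ t.1.2.1 ∈ K := by
    rintro ⟨t, ht⟩
    rw [hT, mem_product, mem_product] at ht
    exact ⟨ht.1, ht.2.1⟩
  set u : T → (ZMod p)[X] := fun t => uu p N I K t.1.1 t.1.2.1 t.1.2.2 with hu
  obtain ⟨κ, a, ha, hspan, hli⟩ := exists_linearIndependent' (ZMod p) u
  have : Finite κ := Finite.of_injective a ha
  have := Fintype.ofFinite κ
  have hn : Fintype.card κ ≤ 12 * K.card := by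
    have h := Fintype.card_le_of_injective a ha
    rwa [Fintype.card_coe, hTcard] at h
  set n := Fintype.card κ with hndef
  set L := (EX N I K).card with hL
  have hLc : L ≤ 4 * I + 14 + 14 * K.card := EX_card N I K (by omega)
  -- the main function is not in the span
  have hnot : PP p N I M K ∉ Submodule.span (ZMod p) (Set.range (u ∘ a)) := by
    intro hmem
    rw [hspan] at hmem
    obtain ⟨e, he1, he2, he3⟩ := PP_ne hp7 N I M hN hIM hM K hK hf
    have hle : Submodule.span (ZMod p) (Set.range u) ≤ LinearMap.ker (Polynomial.lcoeff (ZMod p) e) := by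
      rw [Submodule.span_le]
      rintro g ⟨t, rfl⟩
      rw [SetLike.mem_coe, LinearMap.mem_ker, Polynomial.lcoeff_apply]
      exact uu_mid hp7 N I M K _ (hTm t).1 _ (hK _ (hTm t).2).2 hM _ e he1 he2
    have h := hle hmem
    rw [LinearMap.mem_ker, Polynomial.lcoeff_apply] at h
    exact he3 h
  set v : Option κ → (ZMod p)[X] := fun o => Option.casesOn' o (PP p N I M K) (u ∘ a) with hv
  have hvn : v none = PP p N I M K := rfl
  have hvs : ∀ j, v (some j) = u (a j) := fun j => rfl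
  have hvli : LinearIndependent (ZMod p) v := linearIndependent_option'.2 ⟨hli, hnot⟩
  set ix : Option κ → ℕ := fun o => (Fintype.equivFin (Option κ) o : ℕ) with hix
  have hcardO : Fintype.card (Option κ) = n + 1 := Fintype.card_option
  have hixlt : ∀ o, ix o < Fintype.card (Option κ) := fun o => (Fintype.equivFin (Option κ) o).2
  have hixinj : Function.Injective ix := by
    intro x y hxy
    exact (Fintype.equivFin (Option κ)).injective (Fin.ext hxy)
  have hdegp : ∀ o, (v o).natDegree < p := by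
    intro o
    rcases o with _ | j
    · rw [hvn]
      exact lt_of_le_of_lt (PP_deg hp7 N I M hM K) (by omega)
    · rw [hvs]
      have h1 := hK _ (hTm (a j)).2
      exact uu_lt hp7 N I hN K _ (hTm (a j)).1 _ (by omega) _
  have hW : WW ix v ≠ 0 := WW_ne p ix hixlt hixinj v hdegp hvli
  -- the order at zero
  have hB : X ^ (2 * M + 2 + ∑ j, exx N (a j).1.2.1 (a j).1.2.2) ∣ WW ix v := by
    have h1 : ∏ o, X ^ (Option.casesOn' o (2 * M + 2) (fun j => exx N (a j).1.2.1 (a j).1.2.2)) ∣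
        WW ix v := by
      unfold WW
      refine dvd_det _ _ ?_
      intro o o'
      rw [Matrix.of_apply]
      rcases o with _ | j
      · exact X_dvd_th _ _ _ (PP_X N I M K)
      · exact X_dvd_th _ _ _ (uu_X N I K _ _ _)
    rw [Finset.prod_pow_eq_pow_sum, Fintype.sum_option] at h1
    exact h1
  -- the degree
  have hD : (WW ix v).natDegree ≤ 2 * (N - M) + 4 +
      ∑ j, (exx N (a j).1.2.1 (a j).1.2.2 + 2 * (a j).1.2.1 + 5) := by
    have h1 := natDegree_det (Matrix.of fun o o' => th (ix o') (v o))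
      (fun o => Option.casesOn' o (2 * (N - M) + 4)
        (fun j => exx N (a j).1.2.1 (a j).1.2.2 + 2 * (a j).1.2.1 + 5)) (by
        intro o o'
        rw [Matrix.of_apply]
        refine natDegree_th _ _ _ ?_
        rcases o with _ | j
        · exact PP_deg hp7 N I M hM K
        · exact uu_deg hp7 N I K _ (hTm (a j)).1 _ _)
    rw [Fintype.sum_option] at h1
    exact h1
  -- the order at the six points
  have hS : ∀ τ ∈ SS p, (X - C τ) ^ ((2 * M + 2 - L - n) +
      ∑ j, (if (a j).1.1 = τ then 2 * (a j).1.2.1 - (L + n) else 0)) ∣ WW ix v := by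
    intro τ hτ
    obtain ⟨c, d, hcd⟩ := loc hp7 N I M hN hN2 (by omega) hM K
      (fun i hi => ⟨(hK i hi).1, by have := (hK i hi).2; omega⟩) hgap τ hτ
    -- the combination is a combination of the chosen functions
    have hmem : ∑ i ∈ K, (C (c i) * uu p N I K τ i false + C (d i) * uu p N I K τ i true) ∈
        Submodule.span (ZMod p) (Set.range (u ∘ a)) := by
      rw [hspan]
      refine Submodule.sum_mem _ fun i hi => Submodule.add_mem _ ?_ ?_
      · rw [← Polynomial.smul_eq_C_mul]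
        refine Submodule.smul_mem _ _ (Submodule.subset_span ?_)
        have hm : ((τ, (i, false)) : ZMod p × (ℕ × Bool)) ∈ T := by
          rw [hT, mem_product, mem_product]
          exact ⟨hτ, hi, mem_univ _⟩
        exact ⟨⟨_, hm⟩, rfl⟩
      · rw [← Polynomial.smul_eq_C_mul]
        refine Submodule.smul_mem _ _ (Submodule.subset_span ?_)
        have hm : ((τ, (i, true)) : ZMod p × (ℕ × Bool)) ∈ T := by
          rw [hT, mem_product, mem_product]
          exact ⟨hτ, hi, mem_univ _⟩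
        exact ⟨⟨_, hm⟩, rfl⟩
    rw [Submodule.mem_span_range_iff_exists_fun] at hmem
    obtain ⟨b, hb⟩ := hmem
    have hup := WW_update ix v none (fun o => Option.casesOn' o 1 b) rfl
    have hsum : ∑ o, C ((fun o => Option.casesOn' o 1 b : Option κ → ZMod p) o) * v o =
        PP p N I M K +
      ∑ i ∈ K, (C (c i) * uu p N I K τ i false + C (d i) * uu p N I K τ i true) := by
      rw [Fintype.sum_option, ← hb]
      have e1 : C ((fun o => Option.casesOn' o 1 b : Option κ → ZMod p) none) * v none =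
          PP p N I M K := by
        show C (1 : ZMod p) * v none = _
        rw [C_1, one_mul, hvn]
      rw [e1]
      congr 1
      refine Finset.sum_congr rfl fun j _ => ?_
      show C (b j) * v (some j) = b j • (u ∘ a) j
      rw [hvs, Polynomial.smul_eq_C_mul, Function.comp]
    rw [hsum] at hup
    rw [← hup]
    have h1 : ∏ o, (X - C τ) ^ (Option.casesOn' o (2 * M + 2 - L - n)
        (fun j => if (a j).1.1 = τ then 2 * (a j).1.2.1 - (L + n) else 0)) ∣
        WW ix (Function.update v none (PP p N I M K +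
      ∑ i ∈ K, (C (c i) * uu p N I K τ i false + C (d i) * uu p N I K τ i true))) := by
      unfold WW
      refine dvd_det _ _ ?_
      intro o o'
      rw [Matrix.of_apply]
      have hix' : ix o' ≤ n := by
        have := hixlt o'
        omega
      rcases o with _ | j
      · rw [Function.update_self]
        show (X - C τ) ^ (2 * M + 2 - L - n) ∣ _
        rcases Nat.lt_or_ge (2 * M + 2 - L) n with h | h
        · rw [Nat.sub_eq_zero_of_le h.le, pow_zero]
          exact one_dvd _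
        · refine dvd_th_at τ _ _ _ ((pow_dvd_pow _ ?_).trans hcd)
          omega
      · rw [Function.update_of_ne (by simp)]
        show (X - C τ) ^ (if (a j).1.1 = τ then 2 * (a j).1.2.1 - (L + n) else 0) ∣ _
        split_ifs with hj
        · rcases Nat.lt_or_ge (2 * (a j).1.2.1) (L + n) with h | h
          · rw [Nat.sub_eq_zero_of_le h.le, pow_zero]
            exact one_dvd _
          · refine dvd_th_at τ _ _ _ ((pow_dvd_pow _ ?_).trans (?_ : (X - C τ) ^
              (2 * (a j).1.2.1 - L) ∣ v (some j)))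
            · omega
            · rw [hvs, hu, ← hj]
              exact uu_tau N I K _ _ _
        · rw [pow_zero]
          exact one_dvd _
    rw [Finset.prod_pow_eq_pow_sum, Fintype.sum_option] at h1
    exact h1
  have hfin := PL (WW ix v) hW (SS p) (SS_ne hp7) _ hS _ hB _ hD
  rw [Finset.sum_add_distrib, Finset.sum_const, SS_card hp7, smul_eq_mul, Finset.sum_comm] at hfin
  have h2 : ∀ j, ∑ τ ∈ SS p, (if (a j).1.1 = τ then 2 * (a j).1.2.1 - (L + n) else 0) =
      2 * (a j).1.2.1 - (L + n) := by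
    intro j
    rw [Finset.sum_ite_eq (SS p), if_pos (hTm (a j)).1]
  rw [Finset.sum_congr rfl fun j _ => h2 j] at hfin
  have h3 : ∑ j, 2 * (a j).1.2.1 ≤ ∑ j, (2 * (a j).1.2.1 - (L + n)) + n * (L + n) := by
    have h4 : n * (L + n) = ∑ _j : κ, (L + n) := by
      rw [Finset.sum_const, card_univ, smul_eq_mul]
    rw [h4, ← Finset.sum_add_distrib]
    refine Finset.sum_le_sum fun j _ => ?_
    omega
  have h5 : ∑ j, (exx N (a j).1.2.1 (a j).1.2.2 + 2 * (a j).1.2.1 + 5) =
      ∑ j, exx N (a j).1.2.1 (a j).1.2.2 + ∑ j, 2 * (a j).1.2.1 + n * 5 := by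
    rw [Finset.sum_add_distrib, Finset.sum_add_distrib, Finset.sum_const, card_univ, smul_eq_mul]
  rw [h5] at hfin
  have h6 : 16 * M + 10 ≤ 2 * N + 6 * L + 11 * n + n * (L + n) := by omega
  set k := K.card
  have h7 : n * (L + n) ≤ (12 * k) * ((4 * I + 14 + 14 * k) + 12 * k) :=
    Nat.mul_le_mul hn (Nat.add_le_add hLc hn)
  have h8 : (12 * k) * ((4 * I + 14 + 14 * k) + 12 * k) = 48 * (k * I) + 168 * k + 312 * (k * k) := by
    ring
  have h9 : k * (24 * I + 156 * k + 192) = 24 * (k * I) + 156 * (k * k) + 192 * k := by ring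
  rw [h9]
  omega

/-- the theorem -/
theorem count (N I M : ℕ) (hN : 2 * N + 3 ≤ p) (hN2 : 2 ≤ N) (hM : 2 * M < N) :
    8 * M ≤ N + 12 * I + 37 + ((Ioc I M).filter (fun i => ww p N i ≠ 0)).card *
      (24 * I + 156 * ((Ioc I M).filter (fun i => ww p N i ≠ 0)).card + 216) := by
  set K := (Ioc I M).filter (fun i => ww p N i ≠ 0) with hK
  have hKm : ∀ i, i ∈ K ↔ (I < i ∧ i ≤ M) ∧ ww p N i ≠ 0 := by
    intro i
    rw [hK, mem_filter, mem_Ioc]
  set k := K.card with hk
  have h9 : k * (24 * I + 156 * k + 216) = 24 * (k * I) + 156 * (k * k) + 216 * k := by ring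
  rcases Nat.lt_or_ge M (I + 3 * k + 3) with hlt | hge
  · omega
  -- a block without exceptional indices
  obtain ⟨t, ht, htK⟩ : ∃ t, t ≤ k ∧ ∀ i ∈ K, (M - i) / 3 ≠ t := by
    have h1 : (K.image (fun i => (M - i) / 3)).card < (range (k + 1)).card := by
      rw [card_range]
      exact Nat.lt_succ_of_le card_image_le
    obtain ⟨t, ht1, ht2⟩ := exists_mem_notMem_of_card_lt_card h1
    refine ⟨t, ?_, ?_⟩
    · rw [mem_range] at ht1
      omega
    · intro i hi h
      exact ht2 (mem_image.2 ⟨i, hi, h⟩)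
  set M₁ := M - 3 * t with hM₁
  set K₁ := K.filter (fun i => i + 3 ≤ M₁) with hK₁
  have hK₁m : ∀ i ∈ K₁, I < i ∧ i + 3 ≤ M₁ := by
    intro i hi
    rw [hK₁, mem_filter, hKm] at hi
    exact ⟨hi.1.1.1, hi.2⟩
  have hgap : ∀ i, I < i → i ≤ M₁ → i ∉ K₁ → ww p N i = 0 := by
    intro i h1 h2 h3
    by_contra h4
    have h5 : i ∈ K := (hKm i).2 ⟨⟨h1, by omega⟩, h4⟩
    have h6 := htK i h5
    rw [hK₁, mem_filter] at h3
    push Not at h3
    have h7 := h3 h5
    apply h6
    omega
  have hcard : K₁.card ≤ k := card_filter_le _ _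
  by_cases hf : fm p N M₁ = 0
  · -- no pairs in the middle
    have hJ : (JJ p N I).card ≤ 2 * k := by
      have h1 : JJ p N I ⊆ K ∪ K.image (fun i => N - i) := by
        intro i hi
        rw [mem_JJ] at hi
        obtain ⟨⟨h2, h3⟩, h4⟩ := hi
        rw [mem_union]
        rcases Nat.lt_or_ge M₁ i with h5 | h5
        · rcases Nat.lt_or_ge i (N - M₁) with h6 | h6
          · exact absurd hf (fun h => fm_ne N M₁ i h5 h6 h4 (by rw [h, coeff_zero]))
          · right
            rw [mem_image]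
            refine ⟨N - i, (hKm _).2 ⟨⟨by omega, by omega⟩, ?_⟩, by omega⟩
            rw [ww_symm' N i (by omega)]
            exact h4
        · left
          exact (hKm i).2 ⟨⟨h2, by omega⟩, h4⟩
      have h2 := card_le_card h1
      have h3 := card_union_le K (K.image (fun i => N - i))
      have h4 := card_image_le (s := K) (f := fun i => N - i)
      omega
    have hs := star p N I hN hN2 (by omega)
    have h1 : (2 * (JJ p N I).card + 1) * (4 * I + 3 * (JJ p N I).card + 1) ≤
        (2 * (2 * k) + 1) * (4 * I + 3 * (2 * k) + 1) :=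
      Nat.mul_le_mul (by omega) (by omega)
    have h2 : (2 * (2 * k) + 1) * (4 * I + 3 * (2 * k) + 1) =
        16 * (k * I) + 24 * (k * k) + 10 * k + 4 * I + 1 := by ring
    rw [h9]
    omega
  · have h1 := bound_K N I M₁ hN hN2 (by omega) (by omega) K₁ hK₁m hgap hf
    have h2 : K₁.card * (24 * I + 156 * K₁.card + 192) ≤ k * (24 * I + 156 * k + 192) :=
      Nat.mul_le_mul hcard (by omega)
    have h3 : k * (24 * I + 156 * k + 192) = 24 * (k * I) + 156 * (k * k) + 192 * k := by ring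
    rw [h9]
    omega

end Pool.Agent.K1H44.RG
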